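import Pool.Agent.Lib.MP_d164ca_an.LS.Defs

/-!
# Second differences
Plan: e_i(k) = (k+1)^i + (k-1)^i - 2 k^i = 0 for i = 0, 1 and = 2 ∑_(j even ≥ 2) C(i,j) k^(i-j) for i ≥ 2, so for k ≥ 1
k^(i-2) ≤ e_i(k) ≤ 2^(i+1) k^(i-2) (i ≥ 2). p = natDegree, -α the leading coefficient, α > 0:
the left side = ∑ q_i c^i e_i(k) ≤ -α c^p k^(p-2) + ∑_(2 ≤ i < p) |q_i| c^i 2^(i+1) k^(i-2) ≤ c^(p-1) k^(p-2) (-α c + ∑ |q_i| 2^(i+1)) ≤ -c^(p-1) k^(p-2) ≤ -c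
for c ≥ C := max 1 ((1 + ∑ |q_i| 2^(i+1)) / α).
-/

namespace Pool.Agent.MPd164ca

open Polynomial Finset

private theorem DecQ_bounds {x : ℝ} (hx : 1 ≤ x) (n : ℕ) :
    2 * x ^ n ≤ (x + 1) ^ (n + 2) + (x - 1) ^ (n + 2) - 2 * x ^ (n + 2) ∧
    (x + 1) ^ (n + 2) + (x - 1) ^ (n + 2) - 2 * x ^ (n + 2) ≤ (2 ^ (n + 3) - 2) * x ^ n ∧
    0 ≤ (x + 1) ^ (n + 2) - (x - 1) ^ (n + 2) ∧
    (x + 1) ^ (n + 2) - (x - 1) ^ (n + 2) ≤ (2 ^ (n + 3) - 2) * x ^ (n + 1) := by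
  induction n with
  | zero =>
    refine ⟨?_, ?_, ?_, ?_⟩ <;> norm_num <;> nlinarith
  | succ n ih =>
    obtain ⟨h1, h2, h3, h4⟩ := ih
    have hx0 : 0 ≤ x := by linarith
    have e1 : (x + 1) ^ (n + 1 + 2) + (x - 1) ^ (n + 1 + 2) - 2 * x ^ (n + 1 + 2) =
        x * ((x + 1) ^ (n + 2) + (x - 1) ^ (n + 2) - 2 * x ^ (n + 2)) +
          ((x + 1) ^ (n + 2) - (x - 1) ^ (n + 2)) := by ring
    have e2 : (x + 1) ^ (n + 1 + 2) - (x - 1) ^ (n + 1 + 2) =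
        x * ((x + 1) ^ (n + 2) - (x - 1) ^ (n + 2)) +
          ((x + 1) ^ (n + 2) + (x - 1) ^ (n + 2) - 2 * x ^ (n + 2)) + 2 * x ^ (n + 2) := by ring
    have h1' := mul_le_mul_of_nonneg_left h1 hx0
    have h2' := mul_le_mul_of_nonneg_left h2 hx0
    have h3' := mul_nonneg hx0 h3
    have h4' := mul_le_mul_of_nonneg_left h4 hx0
    have hp0 : 0 ≤ x ^ n := pow_nonneg hx0 n
    have hp1 : 0 ≤ x ^ (n + 1) := pow_nonneg hx0 _
    have hp2 : 0 ≤ x ^ (n + 2) := pow_nonneg hx0 _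
    have hle : x ^ n ≤ x ^ (n + 2) := pow_le_pow_right₀ hx (by omega)
    have h2c : (0 : ℝ) ≤ 2 ^ (n + 3) - 2 := by
      have : (2 : ℝ) ^ 1 ≤ 2 ^ (n + 3) := pow_le_pow_right₀ (by norm_num) (by omega)
      linarith
    have hle' := mul_le_mul_of_nonneg_left hle h2c
    have p1 : x ^ (n + 1) = x * x ^ n := by ring
    have p2 : x ^ (n + 2) = x * x ^ (n + 1) := by ring
    have p3 : (2 : ℝ) ^ (n + 1 + 3) = 2 * 2 ^ (n + 3) := by ring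
    refine ⟨?_, ?_, ?_, ?_⟩
    · rw [e1, p1]; linarith
    · rw [e1, p3]
      have : x * ((2 ^ (n + 3) - 2) * x ^ n) = (2 ^ (n + 3) - 2) * x ^ (n + 1) := by ring
      rw [this] at h2'
      have hh : (2 * 2 ^ (n + 3) - 2) * x ^ (n + 1) =
        (2 ^ (n + 3) - 2) * x ^ (n + 1) + (2 ^ (n + 3) - 2) * x ^ (n + 1) + 2 * x ^ (n + 1) := by
        ring
      rw [hh]; linarith
    · rw [e2]
      nlinarith
    · rw [e2, p3]
      have : x * ((2 ^ (n + 3) - 2) * x ^ (n + 1)) = (2 ^ (n + 3) - 2) * x ^ (n + 2) := by ring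
      rw [this] at h4'
      have hh : (2 * 2 ^ (n + 3) - 2) * x ^ (n + 1 + 1) =
        (2 ^ (n + 3) - 2) * x ^ (n + 2) + (2 ^ (n + 3) - 2) * x ^ (n + 2) + 2 * x ^ (n + 2) := by
        ring
      rw [hh]; linarith

theorem ls_second_diff {q : ℝ[X]} (hq : 2 ≤ q.natDegree) (hl : q.leadingCoeff < 0) :
    ∃ C : ℝ, 1 ≤ C ∧ ∀ c : ℝ, C ≤ c → ∀ k : ℕ, 1 ≤ k →
      q.eval (c * (k + 1)) + q.eval (c * (k - 1)) - 2 * q.eval (c * k) ≤ -c := by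
  obtain ⟨m, hm⟩ : ∃ m, q.natDegree = m + 2 := ⟨q.natDegree - 2, by omega⟩
  set B : ℝ := ∑ i ∈ range (m + 2), |q.coeff i| * 2 ^ (i + 1) with hB
  have hlc : q.coeff (m + 2) < 0 := by
    rw [← hm]; exact hl
  refine ⟨max 1 ((1 + B) / (-q.coeff (m + 2))), le_max_left _ _, ?_⟩
  intro c hc k hk
  have hc1 : 1 ≤ c := le_trans (le_max_left _ _) hc
  have hc2 : (1 + B) / (-q.coeff (m + 2)) ≤ c := le_trans (le_max_right _ _) hc
  have hc0 : 0 ≤ c := by linarith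
  have hk1 : (1 : ℝ) ≤ k := by exact_mod_cast hk
  have hk0 : (0 : ℝ) ≤ k := by linarith
  have hkey : q.coeff (m + 2) * c + B ≤ -1 := by
    rw [div_le_iff₀ (by linarith)] at hc2
    linarith
  have hsum : q.eval (c * (k + 1)) + q.eval (c * (k - 1)) - 2 * q.eval (c * k) =
      ∑ i ∈ range (m + 2 + 1), q.coeff i * c ^ i *
        (((k : ℝ) + 1) ^ i + ((k : ℝ) - 1) ^ i - 2 * (k : ℝ) ^ i) := by
    rw [Polynomial.eval_eq_sum_range, Polynomial.eval_eq_sum_range,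
      Polynomial.eval_eq_sum_range, hm, Finset.mul_sum, ← Finset.sum_add_distrib,
      ← Finset.sum_sub_distrib]
    refine Finset.sum_congr rfl fun i _ => ?_
    rw [mul_pow, mul_pow, mul_pow]
    ring
  rw [hsum, Finset.sum_range_succ]
  have hterm : ∀ i ∈ range (m + 2), q.coeff i * c ^ i *
        (((k : ℝ) + 1) ^ i + ((k : ℝ) - 1) ^ i - 2 * (k : ℝ) ^ i) ≤
        (|q.coeff i| * 2 ^ (i + 1)) * (c ^ (m + 1) * (k : ℝ) ^ m) := by
    intro i hi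
    rw [Finset.mem_range] at hi
    have hR : 0 ≤ (|q.coeff i| * 2 ^ (i + 1)) * (c ^ (m + 1) * (k : ℝ) ^ m) := by positivity
    rcases i with _ | _ | n
    · have : q.coeff 0 * c ^ 0 *
        (((k : ℝ) + 1) ^ 0 + ((k : ℝ) - 1) ^ 0 - 2 * (k : ℝ) ^ 0) = 0 := by norm_num
      rw [this]; exact hR
    · have : q.coeff (0 + 1) * c ^ (0 + 1) *
        (((k : ℝ) + 1) ^ (0 + 1) + ((k : ℝ) - 1) ^ (0 + 1) - 2 * (k : ℝ) ^ (0 + 1)) = 0 := by ring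
      rw [this]; exact hR
    · obtain ⟨h1, h2, -, -⟩ := DecQ_bounds hk1 n
      have hn : n + 1 + 1 = n + 2 := rfl
      rw [hn]
      have he0 : 0 ≤ ((k : ℝ) + 1) ^ (n + 2) + ((k : ℝ) - 1) ^ (n + 2) - 2 * (k : ℝ) ^ (n + 2) :=
        le_trans (by positivity) h1
      have he1 : ((k : ℝ) + 1) ^ (n + 2) + ((k : ℝ) - 1) ^ (n + 2) - 2 * (k : ℝ) ^ (n + 2) ≤
          2 ^ (n + 3) * (k : ℝ) ^ m := by
        calc _ ≤ (2 ^ (n + 3) - 2) * (k : ℝ) ^ n := h2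
          _ ≤ 2 ^ (n + 3) * (k : ℝ) ^ n := by
              apply mul_le_mul_of_nonneg_right _ (by positivity)
              linarith
          _ ≤ 2 ^ (n + 3) * (k : ℝ) ^ m := by
              apply mul_le_mul_of_nonneg_left _ (by positivity)
              exact pow_le_pow_right₀ hk1 (by omega)
      have hcp : c ^ (n + 2) ≤ c ^ (m + 1) := pow_le_pow_right₀ hc1 (by omega)
      have hcp0 : 0 ≤ c ^ (n + 2) := by positivity
      calc q.coeff (n + 2) * c ^ (n + 2) *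
            (((k : ℝ) + 1) ^ (n + 2) + ((k : ℝ) - 1) ^ (n + 2) - 2 * (k : ℝ) ^ (n + 2))
          ≤ |q.coeff (n + 2)| * c ^ (n + 2) *
            (((k : ℝ) + 1) ^ (n + 2) + ((k : ℝ) - 1) ^ (n + 2) - 2 * (k : ℝ) ^ (n + 2)) := by
              apply mul_le_mul_of_nonneg_right _ he0
              exact mul_le_mul_of_nonneg_right (le_abs_self _) hcp0
        _ ≤ |q.coeff (n + 2)| * c ^ (m + 1) * (2 ^ (n + 3) * (k : ℝ) ^ m) := by
              apply mul_le_mul _ he1 he0 (by positivity)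
              exact mul_le_mul_of_nonneg_left hcp (abs_nonneg _)
        _ = (|q.coeff (n + 2)| * 2 ^ (n + 2 + 1)) * (c ^ (m + 1) * (k : ℝ) ^ m) := by ring
  have h1 := Finset.sum_le_sum hterm
  rw [← Finset.sum_mul, ← hB] at h1
  obtain ⟨b1, -, -, -⟩ := DecQ_bounds hk1 m
  have hkm : 0 ≤ (k : ℝ) ^ m := by positivity
  have b1' : (k : ℝ) ^ m ≤
      ((k : ℝ) + 1) ^ (m + 2) + ((k : ℝ) - 1) ^ (m + 2) - 2 * (k : ℝ) ^ (m + 2) := by linarith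
  have hneg : q.coeff (m + 2) * c ^ (m + 2) ≤ 0 :=
    mul_nonpos_of_nonpos_of_nonneg hlc.le (by positivity)
  have h2 : q.coeff (m + 2) * c ^ (m + 2) *
      (((k : ℝ) + 1) ^ (m + 2) + ((k : ℝ) - 1) ^ (m + 2) - 2 * (k : ℝ) ^ (m + 2)) ≤
      q.coeff (m + 2) * c ^ (m + 2) * (k : ℝ) ^ m := mul_le_mul_of_nonpos_left b1' hneg
  have h3 : B * (c ^ (m + 1) * (k : ℝ) ^ m) + q.coeff (m + 2) * c ^ (m + 2) * (k : ℝ) ^ m =
      (q.coeff (m + 2) * c + B) * (c ^ (m + 1) * (k : ℝ) ^ m) := by ring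
  have hP : 0 ≤ c ^ (m + 1) * (k : ℝ) ^ m := by positivity
  have h4 : (q.coeff (m + 2) * c + B) * (c ^ (m + 1) * (k : ℝ) ^ m) ≤
      (-1) * (c ^ (m + 1) * (k : ℝ) ^ m) := mul_le_mul_of_nonneg_right hkey hP
  have h5 : c ≤ c ^ (m + 1) * (k : ℝ) ^ m := by
    have a1 : c ≤ c ^ (m + 1) := by
      calc c = c ^ 1 := (pow_one c).symm
        _ ≤ c ^ (m + 1) := pow_le_pow_right₀ hc1 (by omega)
    have a2 : (1 : ℝ) ≤ (k : ℝ) ^ m := one_le_pow₀ hk1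
    calc c ≤ c ^ (m + 1) := a1
      _ = c ^ (m + 1) * 1 := (mul_one _).symm
      _ ≤ c ^ (m + 1) * (k : ℝ) ^ m := mul_le_mul_of_nonneg_left a2 (by positivity)
  linarith

end Pool.Agent.MPd164ca
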