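import Pool.Agent.Lib.MP_d164ca_an.LS.Defs

/-!
# The rational factor
Plan: there are x₁ ≥ 1 and 0 < A ≤ B with A x^(deg u) ≤ |u x| ≤ B x^(deg u), the same for v, for x ≥ x₁ (Polynomial.isEquivalent_atTop_lead
or the tendsto of u x / x^deg), and u x v x has the sign of u.leadingCoeff * v.leadingCoeff there. For c ≥ x₁, k ≥ 2: |R(c(k-1)) R(c(k+1))| / R(ck)² ≤ const
((k²-1)/k² between 3/4 and 1). For k = 1: |R(0) R(2c)| ≤ const c^N R(c)², N = deg u + 2 deg v or larger (c ≥ 1).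
-/

namespace Pool.Agent.MPd164ca

open Polynomial Finset Filter

private theorem DecR_sq (A y : ℝ) (m n : ℕ) :
    A ^ 2 * (y ^ 2) ^ m / (y ^ 2) ^ n = (A * (y ^ m / y ^ n)) ^ 2 := by
  rw [mul_pow, div_pow, ← pow_mul, ← pow_mul, ← pow_mul y m 2, ← pow_mul y n 2, mul_comm 2 m,
    mul_comm 2 n, mul_div_assoc]

private theorem DecR_mul (B s t : ℝ) (m n : ℕ) :
    B * (s ^ m / s ^ n) * (B * (t ^ m / t ^ n)) = B ^ 2 * (s * t) ^ m / (s * t) ^ n := by
  rw [mul_pow s t m, mul_pow s t n]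
  ring

private theorem DecR_poly {p : ℝ[X]} (hp : p ≠ 0) : ∃ x1 : ℝ, 1 ≤ x1 ∧ ∀ x : ℝ, x1 ≤ x →
    |p.leadingCoeff| / 2 * x ^ p.natDegree ≤ |p.eval x| ∧
    |p.eval x| ≤ 2 * |p.leadingCoeff| * x ^ p.natDegree ∧ 0 < p.leadingCoeff * p.eval x := by
  have hl : p.leadingCoeff ≠ 0 := leadingCoeff_ne_zero.2 hp
  have hdeg : p.degree = (X ^ p.natDegree : ℝ[X]).degree := by
    rw [degree_X_pow, degree_eq_natDegree hp]
  have h1 := Polynomial.div_tendsto_atTop_leadingCoeff_div_of_degree_eq p (X ^ p.natDegree) hdeg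
  have h2 : (X ^ p.natDegree : ℝ[X]).leadingCoeff = 1 := leadingCoeff_X_pow _
  rw [h2, div_one] at h1
  have hpos : 0 < |p.leadingCoeff| / 2 := by positivity
  have h3 := h1.eventually (Metric.ball_mem_nhds p.leadingCoeff hpos)
  rw [eventually_atTop] at h3
  obtain ⟨x0, h3⟩ := h3
  refine ⟨max 1 x0, le_max_left _ _, fun x hx => ?_⟩
  have hx1 : 1 ≤ x := (le_max_left _ _).trans hx
  have h4 := h3 x ((le_max_right _ _).trans hx)
  rw [Real.dist_eq, eval_pow, eval_X] at h4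
  have hxd : 0 < x ^ p.natDegree := by positivity
  set t := p.eval x / x ^ p.natDegree with ht
  have h5 : p.eval x = t * x ^ p.natDegree := by
    rw [ht]
    field_simp
  have h6 : |p.leadingCoeff| / 2 ≤ |t| := by
    have := abs_sub_abs_le_abs_sub p.leadingCoeff t
    rw [abs_sub_comm] at this
    linarith
  have h7 : |t| ≤ 2 * |p.leadingCoeff| := by
    have := abs_sub_abs_le_abs_sub t p.leadingCoeff
    linarith
  rw [h5, abs_mul, abs_of_pos hxd]
  refine ⟨mul_le_mul_of_nonneg_right h6 hxd.le, mul_le_mul_of_nonneg_right h7 hxd.le, ?_⟩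
  have h8 : 0 < p.leadingCoeff * t := by
    rcases lt_or_gt_of_ne hl with h | h
    · rw [abs_of_neg h] at h4 h6
      have := (abs_lt.1 h4).2
      exact mul_pos_of_neg_of_neg h (by linarith)
    · rw [abs_of_pos h] at h4
      have := (abs_lt.1 h4).1
      exact mul_pos h (by linarith)
  rw [← mul_assoc]
  exact mul_pos h8 hxd

private theorem DecR_rat {u v : ℝ[X]} (hu : u ≠ 0) (hv : v ≠ 0) :
    ∃ x1 A B : ℝ, 1 ≤ x1 ∧ 0 < A ∧ 0 < B ∧ ∀ x : ℝ, x1 ≤ x →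
      A * (x ^ u.natDegree / x ^ v.natDegree) ≤ |u.eval x / v.eval x| ∧
      |u.eval x / v.eval x| ≤ B * (x ^ u.natDegree / x ^ v.natDegree) ∧
      0 < u.leadingCoeff * v.leadingCoeff * (u.eval x / v.eval x) := by
  obtain ⟨a, ha, h1⟩ := DecR_poly hu
  obtain ⟨b, hb, h2⟩ := DecR_poly hv
  have hlu : 0 < |u.leadingCoeff| := abs_pos.2 (leadingCoeff_ne_zero.2 hu)
  have hlv : 0 < |v.leadingCoeff| := abs_pos.2 (leadingCoeff_ne_zero.2 hv)
  refine ⟨max a b, |u.leadingCoeff| / 2 / (2 * |v.leadingCoeff|),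
    2 * |u.leadingCoeff| / (|v.leadingCoeff| / 2), ha.trans (le_max_left _ _), by positivity,
    by positivity, fun x hx => ?_⟩
  obtain ⟨u1, u2, u3⟩ := h1 x ((le_max_left _ _).trans hx)
  obtain ⟨v1, v2, v3⟩ := h2 x ((le_max_right _ _).trans hx)
  have hx1 : 1 ≤ x := ha.trans ((le_max_left _ _).trans hx)
  have hxu : 0 < x ^ u.natDegree := by positivity
  have hxv : 0 < x ^ v.natDegree := by positivity
  have hv0 : v.eval x ≠ 0 := by
    intro h
    rw [h, mul_zero] at v3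
    exact lt_irrefl _ v3
  have hva : 0 < |v.eval x| := abs_pos.2 hv0
  rw [abs_div]
  refine ⟨?_, ?_, ?_⟩
  · rw [div_mul_div_comm]
    exact div_le_div₀ (abs_nonneg _) u1 hva v2
  · rw [div_mul_div_comm]
    exact div_le_div₀ (by positivity) u2 (by positivity) v1
  · have h3 : u.leadingCoeff * v.leadingCoeff * (u.eval x / v.eval x) =
        (u.leadingCoeff * u.eval x) * (v.leadingCoeff * v.eval x) / (v.eval x) ^ 2 := by
      field_simp
    rw [h3]
    exact div_pos (mul_pos u3 v3) (by positivity)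

theorem ls_rat_bound {u v : ℝ[X]} (hu : u ≠ 0) (hv : v ≠ 0) :
    ∃ (C K : ℝ) (N : ℕ), 1 ≤ C ∧ 0 < K ∧ ∀ c : ℝ, C ≤ c → ∀ k : ℕ, 1 ≤ k →
      0 < u.leadingCoeff * v.leadingCoeff * (u.eval (c * k) / v.eval (c * k)) ∧
      |u.eval (c * (k - 1)) / v.eval (c * (k - 1))| * |u.eval (c * (k + 1)) / v.eval (c * (k + 1))|
        ≤ K * c ^ N * (u.eval (c * k) / v.eval (c * k)) ^ 2 := by
  obtain ⟨x1, A, B, hx1, hA, hB, h⟩ := DecR_rat hu hv
  set m := u.natDegree with hm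
  set n := v.natDegree with hn
  set R0 := |u.eval 0 / v.eval 0| with hR0
  have hR0n : 0 ≤ R0 := abs_nonneg _
  refine ⟨x1, B ^ 2 / A ^ 2 * (4 / 3) ^ n + R0 * B * 2 ^ m / A ^ 2, 2 * n, hx1, by positivity,
    fun c hc k hk => ?_⟩
  have hc1 : 1 ≤ c := hx1.trans hc
  have hkr : (1 : ℝ) ≤ k := by exact_mod_cast hk
  have hck : x1 ≤ c * k := by nlinarith
  obtain ⟨hl, -, hs⟩ := h (c * k) hck
  refine ⟨hs, ?_⟩
  have hcn : (1 : ℝ) ≤ c ^ (2 * n) := one_le_pow₀ hc1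
  have hsq : A ^ 2 * ((c * k) ^ 2) ^ m / ((c * k) ^ 2) ^ n ≤
      (u.eval (c * k) / v.eval (c * k)) ^ 2 := by
    rw [← sq_abs (u.eval (c * k) / v.eval (c * k))]
    have h0 : 0 ≤ A * ((c * k) ^ m / (c * k) ^ n) := by positivity
    have := pow_le_pow_left₀ h0 hl 2
    exact le_trans (le_of_eq (DecR_sq A (c * k) m n)) this
  have hY : 0 ≤ (u.eval (c * k) / v.eval (c * k)) ^ 2 := sq_nonneg _
  rcases Nat.lt_or_ge 1 k with hk2 | hk2
  · -- k ≥ 2
    have hk2r : (2 : ℝ) ≤ k := by exact_mod_cast hk2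
    have hm1 : x1 ≤ c * ((k : ℝ) - 1) := by nlinarith
    have hp1 : x1 ≤ c * ((k : ℝ) + 1) := by nlinarith
    have b1 := (h _ hm1).2.1
    have b2 := (h _ hp1).2.1
    set P := (c * ((k : ℝ) - 1)) * (c * ((k : ℝ) + 1)) with hP
    set Q := (c * (k : ℝ)) ^ 2 with hQ
    have hQ0 : 0 < Q := by positivity
    have hPQ : P ≤ Q := by
      rw [hP, hQ]
      nlinarith [sq_nonneg c]
    have hPQ2 : 3 / 4 * Q ≤ P := by
      rw [hP, hQ]
      have : (c * (k - 1)) * (c * (k + 1)) - 3 / 4 * (c * k) ^ 2 = c ^ 2 * ((k : ℝ) ^ 2 / 4 - 1) := by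
        ring
      have h2 : 0 ≤ c ^ 2 * ((k : ℝ) ^ 2 / 4 - 1) := by
        refine mul_nonneg (sq_nonneg _) ?_
        nlinarith
      linarith
    have hP0 : 0 < P := by linarith
    have h3 : |u.eval (c * (k - 1)) / v.eval (c * (k - 1))| *
        |u.eval (c * (k + 1)) / v.eval (c * (k + 1))| ≤ B ^ 2 * P ^ m / P ^ n := by
      exact (mul_le_mul b1 b2 (abs_nonneg _) ((abs_nonneg _).trans b1)).trans
        (le_of_eq (DecR_mul B _ _ m n))
    have h4 : B ^ 2 * P ^ m / P ^ n ≤ B ^ 2 * Q ^ m / (3 / 4 * Q) ^ n := by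
      refine div_le_div₀ (by positivity) ?_ (by positivity) ?_
      · exact mul_le_mul_of_nonneg_left (pow_le_pow_left₀ hP0.le hPQ m) (by positivity)
      · exact pow_le_pow_left₀ (by positivity) hPQ2 n
    have h5 : B ^ 2 * Q ^ m / (3 / 4 * Q) ^ n =
        (B ^ 2 / A ^ 2 * (4 / 3) ^ n) * (A ^ 2 * Q ^ m / Q ^ n) := by
      rw [mul_pow]
      have : ((4 : ℝ) / 3) ^ n = 1 / (3 / 4) ^ n := by
        rw [← one_div_pow]
        norm_num
      rw [this]
      field_simp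
    calc _ ≤ B ^ 2 * P ^ m / P ^ n := h3
      _ ≤ (B ^ 2 / A ^ 2 * (4 / 3) ^ n) * (A ^ 2 * Q ^ m / Q ^ n) := h4.trans h5.le
      _ ≤ (B ^ 2 / A ^ 2 * (4 / 3) ^ n) * (u.eval (c * k) / v.eval (c * k)) ^ 2 :=
          mul_le_mul_of_nonneg_left hsq (by positivity)
      _ ≤ ((B ^ 2 / A ^ 2 * (4 / 3) ^ n + R0 * B * 2 ^ m / A ^ 2) * c ^ (2 * n)) *
          (u.eval (c * k) / v.eval (c * k)) ^ 2 := by
          refine mul_le_mul_of_nonneg_right ?_ hY
          have e1 : 0 ≤ R0 * B * 2 ^ m / A ^ 2 := by positivity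
          have e2 : 0 ≤ B ^ 2 / A ^ 2 * (4 / 3) ^ n := by positivity
          nlinarith
  · -- k = 1
    have hk1 : k = 1 := by omega
    subst hk1
    have e0 : c * (((1 : ℕ) : ℝ) - 1) = 0 := by simp
    have e1 : c * (((1 : ℕ) : ℝ) + 1) = 2 * c := by
      push_cast
      ring
    have e2 : c * ((1 : ℕ) : ℝ) = c := by simp
    rw [e2] at hsq hY
    rw [e0, e1, e2]
    have b2 := (h (2 * c) (by linarith)).2.1
    have h3 : |u.eval (2 * c) / v.eval (2 * c)| ≤ B * (2 ^ m * c ^ m) := by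
      refine b2.trans (mul_le_mul_of_nonneg_left ?_ hB.le)
      rw [← mul_pow]
      exact div_le_self (by positivity) (one_le_pow₀ (by linarith))
    have h4 : A ^ 2 * (c ^ 2) ^ m ≤ c ^ (2 * n) * (u.eval c / v.eval c) ^ 2 := by
      have h5 : (0 : ℝ) < (c ^ 2) ^ n := by positivity
      rw [div_le_iff₀ h5] at hsq
      rw [pow_mul, mul_comm]
      rw [mul_comm] at hsq
      linarith [hsq, mul_comm ((c ^ 2) ^ n) ((u.eval c / v.eval c) ^ 2)]
    have h6 : c ^ m ≤ (c ^ 2) ^ m := by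
      refine pow_le_pow_left₀ (by linarith) ?_ m
      nlinarith
    calc R0 * |u.eval (2 * c) / v.eval (2 * c)| ≤ R0 * (B * (2 ^ m * c ^ m)) :=
          mul_le_mul_of_nonneg_left h3 hR0n
      _ ≤ R0 * (B * (2 ^ m * (c ^ 2) ^ m)) := by gcongr
      _ = (R0 * B * 2 ^ m / A ^ 2) * (A ^ 2 * (c ^ 2) ^ m) := by
          field_simp
      _ ≤ (R0 * B * 2 ^ m / A ^ 2) * (c ^ (2 * n) * (u.eval c / v.eval c) ^ 2) :=
          mul_le_mul_of_nonneg_left h4 (by positivity)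
      _ ≤ _ := by
          have e3 : 0 ≤ B ^ 2 / A ^ 2 * (4 / 3) ^ n := by positivity
          have e4 : 0 ≤ c ^ (2 * n) * (u.eval c / v.eval c) ^ 2 := by positivity
          nlinarith [mul_nonneg e3 e4]

end Pool.Agent.MPd164ca
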