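import Pool.Agent.Lib.MP_d164ca_an.LS.Defs

/-!
# No growth
Plan: let γ k = F (c k), F = (u/v) e^q. q has positive leading coefficient and degree ≥ 2, so q(c (k+2)) + q(c k) - 2 q(c (k+1)) ≥ δ > 0 for all large k
(a polynomial in k with positive leading coefficient, or a positive constant if deg q = 2), while (u/v)(c(k+2)) (u/v)(c k) / (u/v)(c(k+1))² → 1. So
γ k γ (k+2) > γ (k+1)² for large k, against ms_turan (Fac1.lean). (Alternative: ms_geom_bound in Struct.lean and q(ck)/k → ∞.)
-/

namespace Pool.Agent.MPd164ca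

open Polynomial Finset Filter Topology

private theorem NegG_lower {u : ℝ[X]} (hu : u ≠ 0) :
    ∃ δ : ℝ, 0 < δ ∧ ∀ᶠ x : ℝ in atTop, δ ≤ |u.eval x| := by
  rcases Nat.eq_zero_or_pos u.natDegree with h | h
  · obtain ⟨a, rfl⟩ : ∃ a, u = C a := ⟨_, eq_C_of_natDegree_eq_zero h⟩
    have ha : a ≠ 0 := by
      rintro rfl
      simp at hu
    refine ⟨|a|, abs_pos.mpr ha, Filter.Eventually.of_forall fun x => ?_⟩
    rw [eval_C]
  · have := Polynomial.abs_tendsto_atTop (P := u) (natDegree_pos_iff_degree_pos.mp h)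
    exact ⟨1, one_pos, this.eventually_ge_atTop 1⟩

private theorem NegG_upper (v : ℝ[X]) :
    ∀ᶠ x : ℝ in atTop, |v.eval x| ≤ Real.exp x := by
  have h := (Polynomial.tendsto_div_exp_atTop v).abs
  rw [abs_zero] at h
  filter_upwards [h.eventually_le_const (show (0 : ℝ) < 1 by norm_num)] with x hx
  rw [abs_div, abs_of_pos (Real.exp_pos x), div_le_one (Real.exp_pos x)] at hx
  exact hx

theorem ls_no_growth {u v q : ℝ[X]} (hu : u ≠ 0) (hv : v ≠ 0) (hq : 2 ≤ q.natDegree)
    (hl : 0 < q.leadingCoeff) {c : ℝ} (hc : 0 < c) :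
    ¬ IsMultiplierSequence (fun k : ℕ => lsF u v q (c * k)) := by
  intro hms
  obtain ⟨δ, hδ, hδe⟩ := NegG_lower hu
  obtain ⟨δv, hδv, hδve⟩ := NegG_lower hv
  have hall : ∀ᶠ x : ℝ in atTop, δ ≤ |u.eval x| ∧ δv ≤ |v.eval x| ∧ |v.eval x| ≤ Real.exp x := by
    filter_upwards [hδe, hδve, NegG_upper v] with x h1 h2 h3
    exact ⟨h1, h2, h3⟩
  have hck : Tendsto (fun k : ℕ => c * (k : ℝ)) atTop atTop :=
    tendsto_natCast_atTop_atTop.const_mul_atTop hc
  obtain ⟨K, hK⟩ := eventually_atTop.mp (hck.eventually hall)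
  set g : ℕ → ℝ := fun k => lsF u v q (c * k) with hg
  have hgne : ∀ k, K ≤ k → 0 < |g k| := by
    intro k hk
    obtain ⟨h1, h2, h3⟩ := hK k hk
    have hu0 : u.eval (c * k) ≠ 0 := abs_pos.mp (lt_of_lt_of_le hδ h1)
    have hv0 : v.eval (c * k) ≠ 0 := abs_pos.mp (lt_of_lt_of_le hδv h2)
    rw [abs_pos, hg]
    simp only [lsF]
    exact mul_ne_zero (div_ne_zero hu0 hv0) (Real.exp_pos _).ne'
  have hT : ∀ k, |g k| * |g (k + 2)| ≤ |g (k + 1)| ^ 2 := by
    intro k
    rw [← abs_mul, abs_of_nonneg (ms_mul_nonneg hms k), sq_abs]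
    exact ms_turan hms k
  set r : ℝ := |g (K + 1)| / |g K| with hr
  have hgK := hgne K le_rfl
  have hr0 : 0 < r := div_pos (hgne _ (by omega)) hgK
  have hstep : ∀ j : ℕ, |g (K + j + 1)| ≤ r * |g (K + j)| := by
    intro j
    induction j with
    | zero =>
      rw [add_zero, hr, div_mul_cancel₀ _ hgK.ne']
    | succ j ih =>
      have h1 := hT (K + j)
      have h2 : 0 < |g (K + j)| := hgne _ (by omega)
      have h3 : 0 < |g (K + j + 1)| := hgne _ (by omega)
      have h4 : |g (K + j)| * |g (K + j + 2)| ≤ |g (K + j)| * (r * |g (K + j + 1)|) := by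
        calc |g (K + j)| * |g (K + j + 2)| ≤ |g (K + j + 1)| ^ 2 := h1
          _ = |g (K + j + 1)| * |g (K + j + 1)| := by ring
          _ ≤ (r * |g (K + j)|) * |g (K + j + 1)| := mul_le_mul_of_nonneg_right ih h3.le
          _ = |g (K + j)| * (r * |g (K + j + 1)|) := by ring
      exact le_of_mul_le_mul_left h4 h2
  have hbd : ∀ j : ℕ, |g (K + j)| ≤ |g K| * r ^ j := by
    intro j
    induction j with
    | zero => simp
    | succ j ih =>
      calc |g (K + (j + 1))| ≤ r * |g (K + j)| := hstep j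
        _ ≤ r * (|g K| * r ^ j) := mul_le_mul_of_nonneg_left ih hr0.le
        _ = |g K| * r ^ (j + 1) := by ring
  -- the exponential bound
  have hlog : ∀ j : ℕ, q.eval (c * ((K + j : ℕ) : ℝ)) ≤
      Real.log (|g K| / δ) + j * Real.log r + c * ((K + j : ℕ) : ℝ) := by
    intro j
    obtain ⟨h1, h2, h3⟩ := hK (K + j) (by omega)
    set x : ℝ := c * ((K + j : ℕ) : ℝ) with hx
    have hvp : 0 < |v.eval x| := lt_of_lt_of_le hδv h2
    have e1 : |g (K + j)| = |u.eval x| / |v.eval x| * Real.exp (q.eval x) := by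
      rw [hg]
      simp only [lsF]
      rw [abs_mul, abs_div, abs_of_pos (Real.exp_pos _)]
    have e2 : δ / Real.exp x * Real.exp (q.eval x) ≤ |g (K + j)| := by
      rw [e1]
      refine mul_le_mul_of_nonneg_right ?_ (Real.exp_pos _).le
      exact div_le_div₀ (abs_nonneg _) h1 hvp h3
    have e3 := e2.trans (hbd j)
    have e4 : Real.exp (q.eval x) ≤ |g K| / δ * r ^ j * Real.exp x := by
      have hex := Real.exp_pos x
      rw [div_mul_eq_mul_div, div_le_iff₀ hex] at e3
      have : Real.exp (q.eval x) ≤ (|g K| * r ^ j * Real.exp x) / δ := by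
        rw [le_div_iff₀ hδ]; linarith
      calc Real.exp (q.eval x) ≤ (|g K| * r ^ j * Real.exp x) / δ := this
        _ = |g K| / δ * r ^ j * Real.exp x := by ring
    have e5 := Real.log_le_log (Real.exp_pos _) e4
    rw [Real.log_exp, Real.log_mul (by positivity) (Real.exp_pos x).ne', Real.log_exp,
      Real.log_mul (by positivity) (by positivity), Real.log_pow] at e5
    exact e5
  -- the polynomial `q - B X` tends to infinity
  set B : ℝ := |Real.log r| / c + 1 with hB
  have hBpos : 0 < B := by positivity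
  have hdegq : (C B * X : ℝ[X]).degree < q.degree := by
    have h1 : (C B * X : ℝ[X]).degree = 1 := degree_C_mul_X hBpos.ne'
    rw [h1]
    have h2 : q ≠ 0 := by
      rintro rfl
      simp at hq
    rw [degree_eq_natDegree h2]
    exact_mod_cast (show 1 < q.natDegree by omega)
  have hlead : (q - C B * X).leadingCoeff = q.leadingCoeff := leadingCoeff_sub_of_degree_lt hdegq
  have hdeg2 : (q - C B * X).degree = q.degree := degree_sub_eq_left_of_degree_lt hdegq
  have htend : Tendsto (fun x : ℝ => (q - C B * X).eval x) atTop atTop := by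
    refine Polynomial.tendsto_atTop_of_leadingCoeff_nonneg _ ?_ ?_
    · rw [hdeg2]
      have h2 : q ≠ 0 := by
        rintro rfl
        simp at hq
      rw [degree_eq_natDegree h2]
      exact_mod_cast (show 0 < q.natDegree by omega)
    · rw [hlead]; exact hl.le
  obtain ⟨J, hJ⟩ := eventually_atTop.mp ((htend.comp hck).eventually_gt_atTop
    (Real.log (|g K| / δ)))
  have h1 := hJ (K + J) (by omega)
  have h2 := hlog J
  simp only [Function.comp_apply, eval_sub, eval_mul, eval_C, eval_X] at h1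
  have h3 : (J : ℝ) * Real.log r ≤ |Real.log r| / c * (c * ((K + J : ℕ) : ℝ)) := by
    have e1 : |Real.log r| / c * (c * ((K + J : ℕ) : ℝ)) = |Real.log r| * ((K + J : ℕ) : ℝ) := by
      field_simp
    rw [e1]
    have e2 : (J : ℝ) ≤ ((K + J : ℕ) : ℝ) := by
      exact_mod_cast Nat.le_add_left J K
    have e3 : (J : ℝ) * Real.log r ≤ (J : ℝ) * |Real.log r| :=
      mul_le_mul_of_nonneg_left (le_abs_self _) (Nat.cast_nonneg J)
    have e4 : (J : ℝ) * |Real.log r| ≤ ((K + J : ℕ) : ℝ) * |Real.log r| :=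
      mul_le_mul_of_nonneg_right e2 (abs_nonneg _)
    linarith
  rw [hB] at h1
  linarith

end Pool.Agent.MPd164ca
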