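import Pool.Agent.Lib.MP_d164ca_an.LS.Defs

/-!
# Rational functions
Plan: q = b X + a. F (c k) = (u/v)(c k) e^a (e^(b c))^k; by ms_geom (Suff.lean) (factor e^(-a), σ = e^(-b c)) k ↦ (u/v)(c k) is a multiplier sequence.
rational_form (Extra.lean) for the complex function F₁ z = u(c z) / v(c z) (off the zeros of v(c z); p = (u.map _).comp (C c * X), q similarly): it is a polynomial s(z) off the zeros,
so u(c z) = s(z) v(c z), and v ∣ u over ℂ, hence over ℝ (Polynomial.map_dvd_map').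
-/

namespace Pool.Agent.MPd164ca

open Polynomial Finset

theorem ls_rational {u v q : ℝ[X]} (hv : v ≠ 0) (hv0 : ∀ x : ℝ, 0 ≤ x → v.eval x ≠ 0)
    (hq : q.natDegree ≤ 1) {c : ℝ} (hc : 0 < c)
    (h : IsMultiplierSequence (fun k : ℕ => lsF u v q (c * k))) : v ∣ u := by
  -- the rational sequence
  have hqe : ∀ x : ℝ, q.eval x = q.coeff 1 * x + q.coeff 0 := by
    intro x
    rw [eval_eq_sum_range' (n := 2) (by omega)]
    simp [Finset.sum_range_succ]
    ring
  have h1 := ms_geom h (Real.exp (-(q.coeff 0))) (σ := Real.exp (-(q.coeff 1 * c)))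
    (Real.exp_pos _)
  have h2 : (fun k : ℕ => Real.exp (-(q.coeff 0)) * Real.exp (-(q.coeff 1 * c)) ^ k *
      lsF u v q (c * k)) = fun k : ℕ => u.eval (c * k) / v.eval (c * k) := by
    funext k
    rw [lsF, hqe, ← Real.exp_nat_mul]
    have h3 : Real.exp (-(q.coeff 0)) * Real.exp (k * -(q.coeff 1 * c)) *
        (u.eval (c * k) / v.eval (c * k) * Real.exp (q.coeff 1 * (c * k) + q.coeff 0)) =
        u.eval (c * k) / v.eval (c * k) *
          (Real.exp (-(q.coeff 0)) * Real.exp (k * -(q.coeff 1 * c)) *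
            Real.exp (q.coeff 1 * (c * k) + q.coeff 0)) := by ring
    rw [h3, ← Real.exp_add, ← Real.exp_add]
    have h4 : -(q.coeff 0) + k * -(q.coeff 1 * c) + (q.coeff 1 * (c * k) + q.coeff 0) = 0 := by
      ring
    rw [h4, Real.exp_zero, mul_one]
  rw [h2] at h1
  set f : ℝ →+* ℂ := Complex.ofRealHom with hf
  set P : ℂ[X] := (u.map f).comp (C (c : ℂ) * X) with hP
  set Q : ℂ[X] := (v.map f).comp (C (c : ℂ) * X) with hQ
  have hmap : ∀ (p : ℝ[X]) (x : ℝ), (p.map f).eval (x : ℂ) = ((p.eval x : ℝ) : ℂ) := by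
    intro p x
    rw [eval_map]
    have := Polynomial.eval₂_at_apply (p := p) f x
    exact this
  have hPk : ∀ x : ℝ, P.eval (x : ℂ) = ((u.eval (c * x) : ℝ) : ℂ) := by
    intro x
    rw [hP, eval_comp, eval_mul, eval_C, eval_X, ← Complex.ofReal_mul, hmap]
  have hQk : ∀ x : ℝ, Q.eval (x : ℂ) = ((v.eval (c * x) : ℝ) : ℂ) := by
    intro x
    rw [hQ, eval_comp, eval_mul, eval_C, eval_X, ← Complex.ofReal_mul, hmap]
  have hQne : ∀ k : ℕ, Q.eval (k : ℂ) ≠ 0 := by
    intro k
    have h3 := hQk (k : ℝ)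
    rw [Complex.ofReal_natCast] at h3
    rw [h3]
    exact_mod_cast hv0 (c * k) (by positivity)
  have hQ0 : Q ≠ 0 := by
    intro h0
    apply hQne 0
    rw [h0, eval_zero]
  have hFk : ∀ k : ℕ, P.eval (k : ℂ) / Q.eval (k : ℂ) =
      ((u.eval (c * k) / v.eval (c * k) : ℝ) : ℂ) := by
    intro k
    have h3 := hPk (k : ℝ)
    have h4 := hQk (k : ℝ)
    rw [Complex.ofReal_natCast] at h3 h4
    rw [h3, h4, Complex.ofReal_div]
  obtain ⟨s, hs⟩ := rational_form (F := fun z => P.eval z / Q.eval z) (p := P) (q := Q) hQ0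
    (fun z _ => rfl)
    (fun k => (P.differentiable.analyticAt _).div (Q.differentiable.analyticAt _) (hQne k))
    (fun k => by
      show (P.eval (k : ℂ) / Q.eval (k : ℂ)).im = 0
      rw [hFk k]; exact Complex.ofReal_im _)
    (by
      have h3 : (fun k : ℕ => (P.eval (k : ℂ) / Q.eval (k : ℂ)).re) =
          fun k : ℕ => u.eval (c * k) / v.eval (c * k) := by
        funext k
        rw [hFk k]; exact Complex.ofReal_re _
      show IsMultiplierSequence (fun k : ℕ => (P.eval (k : ℂ) / Q.eval (k : ℂ)).re)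
      rw [h3]; exact h1)
  have hPQ : P = s * Q := by
    apply Polynomial.eq_of_infinite_eval_eq
    refine Set.Infinite.mono (s := Set.range (fun k : ℕ => (k : ℂ))) ?_
      (Set.infinite_range_of_injective Nat.cast_injective)
    rintro _ ⟨k, rfl⟩
    have h3 := hs k (hQne k)
    simp only [Set.mem_setOf_eq, eval_mul]
    rw [← h3, div_mul_cancel₀ _ (hQne k)]
  have hcc : (c : ℂ) ≠ 0 := by exact_mod_cast hc.ne'
  have hback : ∀ p : ℝ[X], ((p.map f).comp (C (c : ℂ) * X)).comp (C ((c : ℂ)⁻¹) * X) = p.map f := by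
    intro p
    rw [comp_assoc]
    have h3 : (C (c : ℂ) * X : ℂ[X]).comp (C ((c : ℂ)⁻¹) * X) = X := by
      rw [mul_comp, C_comp, X_comp, ← mul_assoc, ← C_mul, mul_inv_cancel₀ hcc, C_1, one_mul]
    rw [h3, comp_X]
  have hdvd : v.map f ∣ u.map f := by
    refine ⟨s.comp (C ((c : ℂ)⁻¹) * X), ?_⟩
    have h3 := congrArg (fun p : ℂ[X] => p.comp (C ((c : ℂ)⁻¹) * X)) hPQ
    simp only [mul_comp] at h3
    rw [hP, hQ, hback, hback] at h3
    rw [h3, mul_comm]
  exact (Polynomial.map_dvd_map' f).mp hdvd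

end Pool.Agent.MPd164ca
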