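import Pool.Agent.Lib.MP_d164ca_an.LS.Defs

/-!
# The sign

For large `k` the number `γ k = F (c k)` has the sign of `s`, the product of the leading
coefficients. No `γ k` is zero (`ms_no_gap`) and `γ (2j) γ (2j+2) ≥ 0` (`ms_mul_nonneg`), so all
`γ (2j)` have the sign of `γ 0`.
-/

namespace Pool.Agent.MPd164ca

open Polynomial Finset Filter Topology

theorem ls_sign {u v q : ℝ[X]} (hu : u ≠ 0) (hv : v ≠ 0) (hv0 : ∀ x : ℝ, 0 ≤ x → v.eval x ≠ 0)
    {c : ℝ} (hc : 0 < c) (h : IsMultiplierSequence (fun k : ℕ => lsF u v q (c * k))) :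
    0 ≤ u.eval 0 * v.eval 0 * (u.leadingCoeff * v.leadingCoeff) := by
  by_cases hu0 : u.eval 0 = 0
  · rw [hu0]; simp
  set γ : ℕ → ℝ := fun k : ℕ => lsF u v q (c * k) with hγ
  -- sign at infinity of u v
  have hw : (u * v) ≠ 0 := mul_ne_zero hu hv
  have hlc : (u * v).leadingCoeff ≠ 0 := leadingCoeff_ne_zero.2 hw
  have hev : ∀ᶠ x : ℝ in atTop, 0 < (u * v).leadingCoeff * (u * v).eval x := by
    by_cases hd : (u * v).natDegree = 0
    · rw [eq_C_of_natDegree_eq_zero hd]
      simp only [leadingCoeff_C, eval_C]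
      refine Filter.Eventually.of_forall fun x => ?_
      have : (u * v).coeff 0 ≠ 0 := by
        intro h0
        apply hw
        rw [eq_C_of_natDegree_eq_zero hd, h0, C_0]
      exact mul_self_pos.2 this
    · have h2 : Tendsto (fun x => (C (u * v).leadingCoeff * (u * v)).eval x) atTop atTop := by
        apply tendsto_atTop_of_leadingCoeff_nonneg
        · rw [degree_C_mul hlc]
          exact natDegree_pos_iff_degree_pos.1 (Nat.pos_of_ne_zero hd)
        · rw [leadingCoeff_mul, leadingCoeff_C]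
          exact mul_self_nonneg _
      filter_upwards [h2.eventually_gt_atTop 0] with x hx
      rwa [eval_mul, eval_C] at hx
  obtain ⟨X0, hX0⟩ := eventually_atTop.1 hev
  have hpos : ∀ k : ℕ, X0 ≤ c * k → 0 < (u * v).leadingCoeff * γ k := by
    intro k hk
    have h1 := hX0 _ hk
    have hvk : v.eval (c * k) ≠ 0 := hv0 _ (by positivity)
    have : (u * v).leadingCoeff * γ k = ((u * v).leadingCoeff * (u * v).eval (c * k)) *
        (Real.exp (q.eval (c * k)) / (v.eval (c * k)) ^ 2) := by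
      simp only [hγ, lsF, eval_mul]
      field_simp
    rw [this]
    exact mul_pos h1 (by positivity)
  have hev' : ∃ K : ℕ, ∀ k, K ≤ k → X0 ≤ c * k := by
    obtain ⟨K, hK⟩ := exists_nat_ge (X0 / c)
    refine ⟨K, fun k hk => ?_⟩
    have : (K : ℝ) ≤ k := by exact_mod_cast hk
    rw [div_le_iff₀ hc] at hK
    nlinarith
  obtain ⟨K, hK⟩ := hev'
  have hg0 : γ 0 ≠ 0 := by
    simp only [hγ, lsF, Nat.cast_zero, mul_zero]
    exact mul_ne_zero (div_ne_zero hu0 (hv0 0 le_rfl)) (Real.exp_ne_zero _)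
  have hne : ∀ k, γ k ≠ 0 := by
    intro k hk
    rcases Nat.eq_zero_or_pos k with rfl | hk0
    · exact hg0 hk
    · have h1 := ms_no_gap h hk0 hg0 hk (max k K) (le_max_left _ _)
      have h2 := hpos (max k K) (hK _ (le_max_right _ _))
      change γ (max k K) = 0 at h1
      rw [h1, mul_zero] at h2
      exact lt_irrefl _ h2
  have hsgn : ∀ j : ℕ, 0 < γ 0 * γ (2 * j) := by
    intro j
    induction j with
    | zero => simpa using mul_self_pos.2 hg0
    | succ j ih =>
      have h1 : 0 ≤ γ (2 * j) * γ (2 * j + 2) := ms_mul_nonneg h (2 * j)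
      have h2 : γ (2 * (j + 1)) ≠ 0 := hne _
      have h3 : 2 * (j + 1) = 2 * j + 2 := by ring
      rw [h3] at h2 ⊢
      have h4 : 0 < γ (2 * j) * γ (2 * j + 2) := lt_of_le_of_ne h1 (mul_ne_zero (hne _) h2).symm
      have h5 : 0 < γ 0 * γ (2 * j) * (γ (2 * j) * γ (2 * j + 2)) := mul_pos ih h4
      have h6 : γ 0 * γ (2 * j) * (γ (2 * j) * γ (2 * j + 2)) =
          (γ 0 * γ (2 * j + 2)) * (γ (2 * j)) ^ 2 := by ring
      rw [h6] at h5
      exact pos_of_mul_pos_left h5 (by positivity)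
  have h1 := hsgn K
  have h2 := hpos (2 * K) (hK _ (by omega))
  have h3 : 0 < (u * v).leadingCoeff * γ 0 := by
    have h4 : 0 < (γ 0 * γ (2 * K)) * ((u * v).leadingCoeff * γ (2 * K)) := mul_pos h1 h2
    have h5 : (γ 0 * γ (2 * K)) * ((u * v).leadingCoeff * γ (2 * K)) =
        ((u * v).leadingCoeff * γ 0) * (γ (2 * K)) ^ 2 := by ring
    rw [h5] at h4
    exact pos_of_mul_pos_left h4 (by positivity)
  have h4 : (u * v).leadingCoeff * γ 0 = (u.eval 0 * v.eval 0 * (u.leadingCoeff * v.leadingCoeff)) *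
      (Real.exp (q.eval 0) / (v.eval 0) ^ 2) := by
    have := hv0 0 le_rfl
    simp only [hγ, lsF, Nat.cast_zero, mul_zero, leadingCoeff_mul]
    field_simp
  rw [h4] at h3
  have := hv0 0 le_rfl
  exact (pos_of_mul_pos_left h3 (by positivity)).le

end Pool.Agent.MPd164ca
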