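import Pool.Agent.Lib.MP_d164ca_an.LS.Quad

/-!
# Polynomials at large scales
Plan: monic P with P(0) ≥ 0 first, strong induction on natDegree (products: ss_ms_mul in SSSuff.lean). Degree 0: ss_ms_one.
P(0) = 0: P = X P'. If P'(0) ≥ 0, factor X (ls_ms_linear, a = 0); if P'(0) < 0, P' has a zero a > 0 (IVT, monic), P = (X (X - a)) P'',
P''(0) > 0, ls_ms_quad (a := -a) (b := 0). P(0) > 0: a real zero r < 0: P = (X - r) P', P'(0) > 0, ls_ms_linear; a real zero r > 0: P = (X - r) P',
P'(0) < 0, so P' has a zero s > 0, P = ((X - r)(X - s)) P'', P''(0) > 0, ls_ms_quad with b = r s; no real zero: P has a monic irreducible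
factor, of degree 2 (Irreducible.degree_le_two), X² + a X + b, b > 0 (no real zero, value > 0 at infinity), P = (X² + a X + b) P', P'(0) > 0.
General P: ms_smul (Fac1.lean); P = 0 is trivial.
-/

namespace Pool.Agent.MPd164ca

open Polynomial Finset

private def PolGood (P : ℝ[X]) : Prop :=
  ∃ C : ℝ, 0 < C ∧ ∀ c : ℝ, C ≤ c → IsMultiplierSequence (fun k : ℕ => P.eval (c * k))

private theorem Pol_mul {P Q : ℝ[X]} (hP : PolGood P) (hQ : PolGood Q) : PolGood (P * Q) := by
  obtain ⟨A, hA, hPA⟩ := hP
  obtain ⟨B, hB, hQB⟩ := hQ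
  refine ⟨max A B, lt_max_of_lt_left hA, fun c hc => ?_⟩
  have h := ss_ms_mul (hPA c (le_trans (le_max_left _ _) hc)) (hQB c (le_trans (le_max_right _ _) hc))
  simpa only [eval_mul] using h

private theorem Pol_lin {a : ℝ} (ha : 0 ≤ a) : PolGood (X + C a) := by
  refine ⟨1, one_pos, fun c hc => ?_⟩
  have h := ls_ms_linear ha (lt_of_lt_of_le one_pos hc)
  simpa only [eval_add, eval_X, eval_C] using h

private theorem Pol_quad (a : ℝ) {b : ℝ} (hb : 0 ≤ b) : PolGood (X ^ 2 + C a * X + C b) := by
  obtain ⟨A, hA, h⟩ := ls_ms_quad a hb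
  refine ⟨A, hA, fun c hc => ?_⟩
  have h' := h c hc
  simpa only [eval_add, eval_mul, eval_pow, eval_X, eval_C] using h'

private theorem Pol_one : PolGood (1 : ℝ[X]) := by
  refine ⟨1, one_pos, fun c _ => ?_⟩
  simpa only [eval_one] using ss_ms_one

/-- A monic polynomial with negative value at `0` has a positive zero. -/
private theorem Pol_root {P : ℝ[X]} (hm : P.Monic) (h0 : P.eval 0 < 0) :
    ∃ s : ℝ, 0 < s ∧ P.eval s = 0 := by
  have hd : 0 < P.degree := by
    by_contra hcon
    have hd0 : P.degree ≤ 0 := not_lt.mp hcon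
    have h1 : P = 1 := hm.degree_le_zero_iff_eq_one.mp hd0
    rw [h1, eval_one] at h0
    linarith
  have ht := Polynomial.tendsto_atTop_of_leadingCoeff_nonneg P hd (by rw [hm.leadingCoeff]; exact zero_le_one)
  obtain ⟨x, hx1, hx2⟩ := ((ht.eventually_ge_atTop 1).and (Filter.eventually_ge_atTop (1 : ℝ))).exists
  have hcont : ContinuousOn (fun x => P.eval x) (Set.Icc 0 x) := P.continuous.continuousOn
  have hmem : (0 : ℝ) ∈ Set.Icc (P.eval 0) (P.eval x) := ⟨h0.le, by linarith⟩
  obtain ⟨s, hs, hs0⟩ := intermediate_value_Icc (by linarith : (0 : ℝ) ≤ x) hcont hmem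
  refine ⟨s, lt_of_le_of_ne hs.1 ?_, hs0⟩
  intro h
  rw [← h] at hs0
  simp only at hs0
  linarith

private theorem Pol_split {P : ℝ[X]} (hm : P.Monic) {r : ℝ} (hr : P.eval r = 0) :
    ∃ Q : ℝ[X], Q.Monic ∧ P = (X - C r) * Q ∧ Q.natDegree < P.natDegree ∧
      P.eval 0 = (-r) * Q.eval 0 := by
  obtain ⟨Q, hQ⟩ := dvd_iff_isRoot.mpr (show P.IsRoot r from hr)
  have hQm : Q.Monic := by
    have h : ((X - C r) * Q).Monic := hQ ▸ hm
    exact (monic_X_sub_C r).of_mul_monic_left h
  refine ⟨Q, hQm, hQ, ?_, ?_⟩
  · have h := congrArg natDegree hQ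
    rw [(monic_X_sub_C r).natDegree_mul hQm, natDegree_X_sub_C] at h
    omega
  · conv_lhs => rw [hQ]
    rw [eval_mul, eval_sub, eval_X, eval_C, zero_sub]

private theorem Pol_monic : ∀ (n : ℕ) (P : ℝ[X]), P.natDegree = n → P.Monic → 0 ≤ P.eval 0 →
    PolGood P := by
  intro n
  induction n using Nat.strong_induction_on with
  | _ n ih =>
    intro P hn hm h0
    rcases h0.eq_or_lt with h0 | h0
    · -- `P 0 = 0`
      obtain ⟨Q, hQm, hPQ, hdeg, _⟩ := Pol_split hm h0.symm
      rcases le_or_gt 0 (Q.eval 0) with hq | hq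
      · have hQ := ih Q.natDegree (hn ▸ hdeg) Q rfl hQm hq
        have h1 : P = (X + C 0) * Q := by rw [hPQ, C_0, sub_zero, add_zero]
        rw [h1]
        exact Pol_mul (Pol_lin le_rfl) hQ
      · obtain ⟨s, hs, hQs⟩ := Pol_root hQm hq
        obtain ⟨S, hSm, hQS, hdeg2, hev⟩ := Pol_split hQm hQs
        have hS0 : 0 ≤ S.eval 0 := by
          rw [hev] at hq
          by_contra hcon
          have := not_le.mp hcon
          nlinarith
        have hS := ih S.natDegree (hn ▸ hdeg2.trans hdeg) S rfl hSm hS0
        have h1 : P = (X ^ 2 + C (-s) * X + C 0) * S := by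
          rw [hPQ, hQS, C_0, C_neg]; ring
        rw [h1]
        exact Pol_mul (Pol_quad _ le_rfl) hS
    · by_cases hroot : ∃ r : ℝ, P.eval r = 0
      · obtain ⟨r, hr⟩ := hroot
        obtain ⟨Q, hQm, hPQ, hdeg, hev⟩ := Pol_split hm hr
        rcases lt_trichotomy r 0 with hr0 | hr0 | hr0
        · have hq : 0 ≤ Q.eval 0 := by
            rw [hev] at h0
            by_contra hcon
            have := not_le.mp hcon
            nlinarith
          have hQ := ih Q.natDegree (hn ▸ hdeg) Q rfl hQm hq
          have h1 : P = (X + C (-r)) * Q := by rw [hPQ, C_neg, sub_eq_add_neg]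
          rw [h1]
          exact Pol_mul (Pol_lin (by linarith)) hQ
        · rw [hr0] at hr
          rw [hr] at h0
          exact absurd h0 (lt_irrefl _)
        · have hq : Q.eval 0 < 0 := by
            rw [hev] at h0
            by_contra hcon
            have := not_lt.mp hcon
            nlinarith
          obtain ⟨s, hs, hQs⟩ := Pol_root hQm hq
          obtain ⟨S, hSm, hQS, hdeg2, hev2⟩ := Pol_split hQm hQs
          have hS0 : 0 ≤ S.eval 0 := by
            rw [hev2] at hq
            by_contra hcon
            have := not_le.mp hcon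
            nlinarith
          have hS := ih S.natDegree (hn ▸ hdeg2.trans hdeg) S rfl hSm hS0
          have h1 : P = (X ^ 2 + C (-(r + s)) * X + C (r * s)) * S := by
            rw [hPQ, hQS, C_neg, C_add, C_mul]; ring
          rw [h1]
          exact Pol_mul (Pol_quad _ (by positivity)) hS
      · by_cases hu : IsUnit P
        · rw [hm.eq_one_of_isUnit hu]
          exact Pol_one
        · obtain ⟨g, hgm, hgi, hgd⟩ := exists_monic_irreducible_factor P hu
          obtain ⟨Q, hQ⟩ := hgd
          have hg2 : g.natDegree ≤ 2 := hgi.natDegree_le_two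
          have hnr : ∀ x : ℝ, g.eval x ≠ 0 := by
            intro x hx
            exact hroot ⟨x, by rw [hQ, eval_mul, hx, zero_mul]⟩
          have hg0 : g.natDegree ≠ 0 := by
            intro h
            have : g = 1 := hgm.natDegree_eq_zero.mp h
            rw [this] at hgi
            exact hgi.not_isUnit isUnit_one
          have hg1 : g.natDegree ≠ 1 := by
            intro h
            have hdeg : g.degree = 1 := by
              rw [degree_eq_natDegree hgm.ne_zero, h]; rfl
            obtain ⟨x, hx⟩ := exists_root_of_degree_eq_one hdeg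
            exact hnr x hx
          have hgd2 : g.natDegree = 2 := by omega
          have hgeq : g = X ^ 2 + C (g.coeff 1) * X + C (g.coeff 0) := by
            have h1 := g.as_sum_range_C_mul_X_pow
            rw [hgd2] at h1
            have hl : g.coeff 2 = 1 := by
              have := hgm.coeff_natDegree
              rwa [hgd2] at this
            conv_lhs => rw [h1]
            simp only [sum_range_succ, sum_range_zero, hl, C_1, pow_zero, pow_one]
            ring
          have hb : 0 < g.coeff 0 := by
            rw [coeff_zero_eq_eval_zero]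
            rcases lt_trichotomy (g.eval 0) 0 with h | h | h
            · obtain ⟨s, _, hs⟩ := Pol_root hgm h
              exact absurd hs (hnr s)
            · exact absurd h (hnr 0)
            · exact h
          have hQm : Q.Monic := hgm.of_mul_monic_left (hQ ▸ hm)
          have hdeg : Q.natDegree < P.natDegree := by
            have h := congrArg natDegree hQ
            rw [hgm.natDegree_mul hQm, hgd2] at h
            omega
          have hq : 0 ≤ Q.eval 0 := by
            rw [hQ, eval_mul, ← coeff_zero_eq_eval_zero g] at h0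
            by_contra hcon
            have := not_le.mp hcon
            nlinarith
          have hQg := ih Q.natDegree (hn ▸ hdeg) Q rfl hQm hq
          rw [hQ, hgeq]
          exact Pol_mul (Pol_quad _ hb.le) hQg

theorem ls_ms_poly (P : ℝ[X]) (h : 0 ≤ P.eval 0 * P.leadingCoeff) :
    ∃ C : ℝ, 0 < C ∧ ∀ c : ℝ, C ≤ c → IsMultiplierSequence (fun k : ℕ => P.eval (c * k)) := by
  rcases eq_or_ne P 0 with rfl | hP
  · refine ⟨1, one_pos, fun c _ => ?_⟩
    have h1 := ms_smul ss_ms_one 0
    simpa only [eval_zero, zero_mul] using h1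
  · have hl : P.leadingCoeff ≠ 0 := leadingCoeff_ne_zero.mpr hP
    have hm : (P * C P.leadingCoeff⁻¹).Monic := monic_mul_leadingCoeff_inv hP
    have h0 : 0 ≤ (P * C P.leadingCoeff⁻¹).eval 0 := by
      rw [eval_mul, eval_C]
      have h2 : P.eval 0 * P.leadingCoeff⁻¹ =
          (P.eval 0 * P.leadingCoeff) * (P.leadingCoeff⁻¹) ^ 2 := by
        field_simp
      rw [h2]
      exact mul_nonneg h (sq_nonneg _)
    obtain ⟨A, hA, hms⟩ := Pol_monic _ (P * C P.leadingCoeff⁻¹) rfl hm h0
    refine ⟨A, hA, fun c hc => ?_⟩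
    have h3 := ms_smul (hms c hc) P.leadingCoeff
    have h4 : (fun k : ℕ => P.leadingCoeff * (P * C P.leadingCoeff⁻¹).eval (c * k)) =
        fun k : ℕ => P.eval (c * k) := by
      funext k
      rw [eval_mul, eval_C]
      field_simp
    rwa [h4] at h3

end Pool.Agent.MPd164ca
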