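import Pool.Agent.Lib.MP_d164ca_an.LS.Ser
import Pool.Agent.Lib.MP_d164ca_an.LS.Pol
import Pool.Agent.Lib.MP_d164ca_an.LS.DecQ
import Pool.Agent.Lib.MP_d164ca_an.LS.DecR
import Pool.Agent.Lib.MP_d164ca_an.LS.NegG
import Pool.Agent.Lib.MP_d164ca_an.LS.NegR
import Pool.Agent.Lib.MP_d164ca_an.LS.NegS

/-!
# Large scales: assembly
-/

namespace Pool.Agent.MPd164ca

open Polynomial Finset Filter Topology

private theorem Asm_exp (K : ℝ) (N : ℕ) : ∃ C : ℝ, ∀ c : ℝ, C ≤ c → 9 * (K * c ^ N * Real.exp (-c)) ≤ 1 := by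
  have h : Tendsto (fun c : ℝ => 9 * (K * (c ^ N * Real.exp (-c)))) atTop (𝓝 (9 * (K * 0))) :=
    ((Real.tendsto_pow_mul_exp_neg_atTop_nhds_zero N).const_mul K).const_mul 9
  rw [mul_zero, mul_zero] at h
  obtain ⟨C, hC⟩ := eventually_atTop.1 ((tendsto_order.1 h).2 1 one_pos)
  exact ⟨C, fun c hc => by have := hC c hc; rw [mul_assoc]; exact this.le⟩

theorem ls_necessity {u v q : ℝ[X]} (hu : u ≠ 0) (hv0 : ∀ x : ℝ, 0 ≤ x → v.eval x ≠ 0)
    {c : ℝ} (hc : 0 < c) (h : IsMultiplierSequence (fun k : ℕ => lsF u v q (c * k))) :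
    0 ≤ u.eval 0 * v.eval 0 * (u.leadingCoeff * v.leadingCoeff) ∧
      ((2 ≤ q.natDegree ∧ q.leadingCoeff < 0) ∨ (q.natDegree ≤ 1 ∧ v ∣ u)) := by
  have hv : v ≠ 0 := fun h => hv0 0 le_rfl (by rw [h, eval_zero])
  refine ⟨ls_sign hu hv hv0 hc h, ?_⟩
  rcases Nat.lt_or_ge q.natDegree 2 with h1 | h1
  · exact Or.inr ⟨by omega, ls_rational hv hv0 (by omega) hc h⟩
  · refine Or.inl ⟨h1, ?_⟩
    have hq : q ≠ 0 := by
      rintro rfl
      simp at h1
    rcases lt_trichotomy q.leadingCoeff 0 with h2 | h2 | h2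
    · exact h2
    · exact absurd (leadingCoeff_eq_zero.1 h2) hq
    · exact absurd h (ls_no_growth hu hv h1 h2 hc)

theorem ls_sufficiency {u v q : ℝ[X]} (hu : u ≠ 0) (hv0 : ∀ x : ℝ, 0 ≤ x → v.eval x ≠ 0)
    (h0 : 0 ≤ u.eval 0 * v.eval 0 * (u.leadingCoeff * v.leadingCoeff))
    (h : (2 ≤ q.natDegree ∧ q.leadingCoeff < 0) ∨ (q.natDegree ≤ 1 ∧ v ∣ u)) :
    ∃ C : ℝ, ∀ c : ℝ, C ≤ c → IsMultiplierSequence (fun k : ℕ => lsF u v q (c * k)) := by
  have hv : v ≠ 0 := fun h => hv0 0 le_rfl (by rw [h, eval_zero])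
  have hs : u.leadingCoeff * v.leadingCoeff ≠ 0 :=
    mul_ne_zero (leadingCoeff_ne_zero.2 hu) (leadingCoeff_ne_zero.2 hv)
  rcases h with ⟨h1, h2⟩ | ⟨h1, P, rfl⟩
  · obtain ⟨C₁, hC₁, hq⟩ := ls_second_diff h1 h2
    obtain ⟨C₂, K, N, hC₂, hK, hr⟩ := ls_rat_bound hu hv
    obtain ⟨C₃, he⟩ := Asm_exp K N
    refine ⟨max C₁ (max C₂ C₃), fun c hc => ?_⟩
    have hc1 : C₁ ≤ c := le_trans (le_max_left _ _) hc
    have hc2 : C₂ ≤ c := le_trans (le_trans (le_max_left _ _) (le_max_right _ _)) hc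
    have hc3 : C₃ ≤ c := le_trans (le_trans (le_max_right _ _) (le_max_right _ _)) hc
    have hc0 : 0 < c := by linarith
    set s : ℝ := u.leadingCoeff * v.leadingCoeff with hs'
    have key : IsMultiplierSequence (fun k : ℕ => s * lsF u v q (c * k)) := by
      apply ls_ms_of_ratio
      · rw [Nat.cast_zero, mul_zero, lsF]
        have hv1 := hv0 0 le_rfl
        have : s * (u.eval 0 / v.eval 0 * Real.exp (q.eval 0)) =
            (u.eval 0 * v.eval 0 * s) * (Real.exp (q.eval 0) / (v.eval 0) ^ 2) := by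
          field_simp
        rw [this]
        exact mul_nonneg h0 (by positivity)
      · intro k hk
        have := (hr c hc2 k hk).1
        rw [lsF, ← mul_assoc]
        exact mul_pos this (Real.exp_pos _)
      · intro k hk
        have hcast : ((k - 1 : ℕ) : ℝ) = (k : ℝ) - 1 := by
          rw [Nat.cast_sub hk, Nat.cast_one]
        have hcast2 : ((k + 1 : ℕ) : ℝ) = (k : ℝ) + 1 := by push_cast; ring
        rw [hcast, hcast2]
        obtain ⟨-, hb⟩ := hr c hc2 k hk
        have hqk := hq c hc1 k hk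
        have hex := he c hc3
        simp only [lsF]
        set A := u.eval (c * (k - 1)) / v.eval (c * (k - 1)) with hA
        set B := u.eval (c * (k + 1)) / v.eval (c * (k + 1)) with hB
        set D := u.eval (c * k) / v.eval (c * k) with hD
        have e1 : A * B ≤ K * c ^ N * D ^ 2 := by
          refine le_trans (le_abs_self _) ?_
          rw [abs_mul]
          exact hb
        have e2 : Real.exp (q.eval (c * (k - 1))) * Real.exp (q.eval (c * (k + 1))) ≤
            Real.exp (q.eval (c * k)) ^ 2 * Real.exp (-c) := by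
          rw [← Real.exp_add, pow_two, ← Real.exp_add, ← Real.exp_add]
          apply Real.exp_le_exp.2
          linarith
        have e3 : 0 ≤ K * c ^ N * D ^ 2 := by positivity
        have e4 : s * (A * Real.exp (q.eval (c * (k - 1)))) * (s * (B * Real.exp (q.eval (c * (k + 1)))))
            ≤ s ^ 2 * ((K * c ^ N * D ^ 2) * (Real.exp (q.eval (c * k)) ^ 2 * Real.exp (-c))) := by
          have : s * (A * Real.exp (q.eval (c * (k - 1)))) * (s * (B * Real.exp (q.eval (c * (k + 1)))))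
            = s ^ 2 * ((A * B) * (Real.exp (q.eval (c * (k - 1))) * Real.exp (q.eval (c * (k + 1))))) := by
            ring
          rw [this]
          refine mul_le_mul_of_nonneg_left ?_ (by positivity)
          refine le_trans (mul_le_mul_of_nonneg_right e1 (by positivity)) ?_
          exact mul_le_mul_of_nonneg_left e2 e3
        calc 9 * (s * (A * Real.exp (q.eval (c * (k - 1)))) * (s * (B * Real.exp (q.eval (c * (k + 1))))))
            ≤ 9 * (s ^ 2 * ((K * c ^ N * D ^ 2) * (Real.exp (q.eval (c * k)) ^ 2 * Real.exp (-c)))) := by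
              linarith
          _ = (s * (D * Real.exp (q.eval (c * k)))) ^ 2 * (9 * (K * c ^ N * Real.exp (-c))) := by ring
          _ ≤ (s * (D * Real.exp (q.eval (c * k)))) ^ 2 * 1 :=
              mul_le_mul_of_nonneg_left hex (by positivity)
          _ = _ := mul_one _
    have h3 := ms_smul key s⁻¹
    have h4 : (fun k : ℕ => s⁻¹ * (s * lsF u v q (c * k))) = fun k : ℕ => lsF u v q (c * k) := by
      funext k
      rw [← mul_assoc, inv_mul_cancel₀ hs, one_mul]
    rwa [h4] at h3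
  · have hP : P ≠ 0 := right_ne_zero_of_mul hu
    have h5 : 0 ≤ P.eval 0 * P.leadingCoeff := by
      have hv1 := hv0 0 le_rfl
      have hv2 : v.leadingCoeff ≠ 0 := leadingCoeff_ne_zero.2 hv
      rw [eval_mul, leadingCoeff_mul] at h0
      have h6 : v.eval 0 * P.eval 0 * v.eval 0 * (v.leadingCoeff * P.leadingCoeff * v.leadingCoeff) =
          (P.eval 0 * P.leadingCoeff) * (v.eval 0 * v.leadingCoeff) ^ 2 := by ring
      rw [h6] at h0
      have h7 : 0 < (v.eval 0 * v.leadingCoeff) ^ 2 := by positivity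
      exact nonneg_of_mul_nonneg_left h0 h7
    obtain ⟨C, hC, hms⟩ := ls_ms_poly P h5
    refine ⟨C, fun c hc => ?_⟩
    have hc0 : 0 < c := lt_of_lt_of_le hC hc
    have h6 := ms_geom (hms c hc) (Real.exp (q.coeff 0)) (Real.exp_pos (q.coeff 1 * c))
    convert h6 using 1
    funext k
    have hck : (0 : ℝ) ≤ c * k := by positivity
    rw [lsF, eval_mul, mul_div_cancel_left₀ _ (hv0 _ hck)]
    have h7 : q.eval (c * k) = q.coeff 0 + q.coeff 1 * c * k := by
      conv_lhs => rw [eq_X_add_C_of_natDegree_le_one h1]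
      simp
      ring
    rw [h7, Real.exp_add, mul_comm (q.coeff 1 * c) (k : ℝ), Real.exp_nat_mul]
    ring

end Pool.Agent.MPd164ca
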