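import Pool.Agent.Lib.MP_d164ca_an.SSMain
import Pool.Agent.Lib.MP_d164ca_an.Extra

/-!
# Large scales: the functions `F = R e^Q`
-/

namespace Pool.Agent.MPd164ca

open Polynomial

/-- The function `F = (u / v) e^q` on the real line. -/
noncomputable def lsF (u v q : ℝ[X]) (x : ℝ) : ℝ :=
  u.eval x / v.eval x * Real.exp (q.eval x)

end Pool.Agent.MPd164ca
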