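import Pool.Agent.Lib.MP_d164ca_an.LS.Defs

/-!
# Rapidly decaying coefficients give real zeros, constant 4 (Hutchinson, Kurtz)
-/

namespace Pool.Agent.MPd164ca

open Polynomial Finset

/-- Alternating sums of an increasing sequence. -/
private theorem Kz_left {T : ℕ → ℝ} (m : ℕ) (h0 : 0 ≤ T 0) (h : ∀ i < m, T i ≤ T (i + 1)) :
    0 ≤ (-1) ^ m * ∑ i ∈ range (m + 1), (-1) ^ i * T i ∧
      (-1) ^ m * ∑ i ∈ range (m + 1), (-1) ^ i * T i ≤ T m := by
  induction m with
  | zero => simpa using h0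
  | succ m ih =>
    have h1 := ih fun i hi => h i (by omega)
    have h2 := h m (by omega)
    have h3 : (-1 : ℝ) ^ (m + 1) * ∑ i ∈ range (m + 1 + 1), (-1) ^ i * T i =
        T (m + 1) - (-1) ^ m * ∑ i ∈ range (m + 1), (-1) ^ i * T i := by
      rw [Finset.sum_range_succ (fun i => (-1 : ℝ) ^ i * T i) (m + 1), mul_add, ← mul_assoc,
        ← pow_add, Even.neg_one_pow (Even.add_self _), one_mul, pow_succ]
      ring
    rw [h3]
    constructor
    · linarith [h1.2]
    · linarith [h1.1]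

/-- Alternating sums of a decreasing sequence. -/
private theorem Kz_right {T : ℕ → ℝ} (n t : ℕ) (ht : t ≤ n) (h0 : 0 ≤ T (n + 1))
    (h : ∀ i, n - t < i → i ≤ n → T (i + 1) ≤ T i) :
    0 ≤ (-1) ^ (n + 1 - t) * ∑ i ∈ Ico (n + 1 - t) (n + 1), (-1) ^ i * T i ∧
      (-1) ^ (n + 1 - t) * ∑ i ∈ Ico (n + 1 - t) (n + 1), (-1) ^ i * T i ≤ T (n + 1 - t) := by
  induction t with
  | zero => simpa using h0
  | succ t ih =>
    have h1 := ih (by omega) fun i hi hi2 => h i (by omega) hi2
    have h2 := h (n - t) (by omega) (by omega)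
    have e1 : n + 1 - (t + 1) = n - t := by omega
    have e2 : n + 1 - t = n - t + 1 := by omega
    rw [e2] at h1
    have h3 : (-1 : ℝ) ^ (n + 1 - (t + 1)) * ∑ i ∈ Ico (n + 1 - (t + 1)) (n + 1), (-1) ^ i * T i =
        T (n - t) - (-1) ^ (n - t + 1) * ∑ i ∈ Ico (n - t + 1) (n + 1), (-1) ^ i * T i := by
      rw [e1, Finset.sum_eq_sum_Ico_succ_bot (by omega : n - t < n + 1), mul_add, ← mul_assoc,
        ← pow_add, Even.neg_one_pow (Even.add_self _), one_mul, pow_succ]
      ring
    rw [h3, e1]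
    constructor
    · linarith [h1.2]
    · linarith [h1.1]

private theorem Kz_sign {p : ℝ[X]} (hpos : ∀ k ≤ p.natDegree, 0 < p.coeff k)
    (h : ∀ k, 1 ≤ k → k < p.natDegree →
      4 * (p.coeff (k - 1) * p.coeff (k + 1)) < p.coeff k ^ 2) {k : ℕ} (hk : k < p.natDegree) :
    0 < (-1) ^ (k + 1) * p.eval (-(2 * (p.coeff k / p.coeff (k + 1)))) := by
  set n := p.natDegree with hn
  obtain ⟨Q, hQ⟩ : ∃ Q : ℕ → ℝ, ∀ i, Q i = p.coeff i / p.coeff (i + 1) := ⟨_, fun i => rfl⟩
  have hQpos : ∀ i < n, 0 < Q i := fun i hi => by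
    rw [hQ]; exact div_pos (hpos i (by omega)) (hpos (i + 1) (by omega))
  have hQ9 : ∀ i, i + 1 < n → 4 * Q i < Q (i + 1) := by
    intro i hi
    have h1 := h (i + 1) (by omega) hi
    have h2 := hpos i (by omega)
    have h3 := hpos (i + 1) (by omega)
    have h4 := hpos (i + 1 + 1) (by omega)
    rw [Nat.add_sub_cancel] at h1
    rw [hQ, hQ, ← mul_div_assoc, div_lt_div_iff₀ h3 h4]
    nlinarith
  have hQm : ∀ i j, i ≤ j → j < n → Q i ≤ Q j := by
    intro i j hij
    induction j, hij using Nat.le_induction with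
    | base => intro _; exact le_rfl
    | succ j hj ih =>
      intro hj2
      have h1 := ih (by omega)
      have h2 := hQ9 j hj2
      have h3 := hQpos j (by omega)
      linarith
  obtain ⟨x, hx⟩ : ∃ x, x = 2 * Q k := ⟨_, rfl⟩
  have hxpos : 0 < x := by rw [hx]; have := hQpos k hk; linarith
  obtain ⟨T, hT⟩ : ∃ T : ℕ → ℝ, ∀ i, T i = p.coeff i * x ^ i := ⟨_, fun i => rfl⟩
  have hT0 : ∀ i, 0 ≤ T i := by
    intro i
    rw [hT]
    by_cases hi : i ≤ n
    · exact (mul_pos (hpos i hi) (pow_pos hxpos i)).le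
    · rw [coeff_eq_zero_of_natDegree_lt (by omega), zero_mul]
  have hQc : ∀ i < n, p.coeff i = Q i * p.coeff (i + 1) := by
    intro i hi
    rw [hQ, div_mul_cancel₀]
    exact (hpos (i + 1) (by omega)).ne'
  have hTs : ∀ i < n, T (i + 1) * Q i = T i * x := by
    intro i hi
    rw [hT, hT, hQc i hi, pow_succ]
    ring
  -- increasing up to k + 1
  have hup : ∀ i < k + 1, T i ≤ T (i + 1) := by
    intro i hi
    have h1 := hTs i (by omega)
    have h2 := hQm i k (by omega) hk
    have h3 := hQpos i (by omega)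
    have h4 := hT0 (i + 1)
    have h5 : T i * x ≤ T (i + 1) * x := by
      rw [← h1]
      apply mul_le_mul_of_nonneg_left _ h4
      rw [hx]; linarith
    exact le_of_mul_le_mul_right h5 hxpos
  have hdown : ∀ i, k < i → T (i + 1) ≤ T i := by
    intro i hi
    by_cases hin : i < n
    · have h1 := hTs i hin
      have h2 := hQm (k + 1) i (by omega) hin
      have h3 := hQ9 k (by omega)
      have h4 := hT0 (i + 1)
      have h5 : T (i + 1) * x ≤ T i * x := by
        rw [← h1]
        apply mul_le_mul_of_nonneg_left _ h4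
        rw [hx]; linarith [hQpos k hk]
      exact le_of_mul_le_mul_right h5 hxpos
    · rw [hT (i + 1), coeff_eq_zero_of_natDegree_lt (by omega), zero_mul]
      exact hT0 i
  have hTk : 2 * T k = T (k + 1) := by
    have h1 := hTs k hk
    have h3 := hQpos k hk
    have h5 : (2 * T k) * Q k = T (k + 1) * Q k := by
      rw [h1, hx]; ring
    exact mul_right_cancel₀ h3.ne' h5
  have hTpos : 0 < T (k + 1) := by
    rw [hT]; exact mul_pos (hpos (k + 1) (by omega)) (pow_pos hxpos _)
  have hTk2 : 2 * T (k + 2) < T (k + 1) := by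
    by_cases hin : k + 1 < n
    · have h1 := hTs (k + 1) hin
      have h3 := hQ9 k hin
      have h4 : 0 < T (k + 2) := by
        rw [hT]; exact mul_pos (hpos (k + 2) (by omega)) (pow_pos hxpos _)
      have h5 : (2 * T (k + 2)) * x < T (k + 1) * x := by
        rw [← h1, mul_comm 2 (T (k + 2)), mul_assoc]
        apply mul_lt_mul_of_pos_left _ h4
        rw [hx]; linarith
      exact lt_of_mul_lt_mul_right h5 hxpos.le
    · rw [hT (k + 2), coeff_eq_zero_of_natDegree_lt (by omega), zero_mul, mul_zero]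
      exact hTpos
  have hev : p.eval (-(2 * (p.coeff k / p.coeff (k + 1)))) =
      ∑ i ∈ range (k + 1), (-1) ^ i * T i + ((-1) ^ (k + 1) * T (k + 1) +
        ∑ i ∈ Ico (k + 2) (n + 1), (-1) ^ i * T i) := by
    rw [← hQ, ← hx, eval_eq_sum_range, ← hn]
    have h1 : ∀ i ∈ range (n + 1), p.coeff i * (-x) ^ i = (-1) ^ i * T i := by
      intro i _
      rw [hT, neg_pow]; ring
    rw [Finset.sum_congr rfl h1, ← Finset.sum_range_add_sum_Ico _ (by omega : k + 1 ≤ n + 1),
      Finset.sum_eq_sum_Ico_succ_bot (by omega : k + 1 < n + 1)]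
  have hL := Kz_left (T := T) k (hT0 0) fun i hi => hup i (by omega)
  have hR := Kz_right (T := T) n (n - (k + 1)) (by omega) (hT0 _) fun i hi _ => hdown i (by omega)
  have e3 : n + 1 - (n - (k + 1)) = k + 2 := by omega
  rw [e3] at hR
  have h7 : (-1 : ℝ) ^ (k + 1) * p.eval (-(2 * (p.coeff k / p.coeff (k + 1)))) =
      T (k + 1) - (-1) ^ k * ∑ i ∈ range (k + 1), (-1) ^ i * T i -
        (-1) ^ (k + 2) * ∑ i ∈ Ico (k + 2) (n + 1), (-1) ^ i * T i := by
    have h8 : (-1 : ℝ) ^ (k + 1) * (-1) ^ (k + 1) = 1 := by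
      rw [← pow_add, Even.neg_one_pow (Even.add_self _)]
    have h9 : (-1 : ℝ) ^ (k + 1) = - (-1) ^ k := by rw [pow_succ]; ring
    have h10 : (-1 : ℝ) ^ (k + 2) = (-1) ^ k := by rw [pow_add]; norm_num
    rw [hev, mul_add, mul_add, ← mul_assoc ((-1 : ℝ) ^ (k + 1)) ((-1) ^ (k + 1)), h8, h9, h10]
    ring
  rw [h7]
  linarith [hL.2, hR.2]

theorem kz_hyperbolic_of_ratio {p : ℝ[X]} (hpos : ∀ k ≤ p.natDegree, 0 < p.coeff k)
    (h : ∀ k, 1 ≤ k → k < p.natDegree →
      4 * (p.coeff (k - 1) * p.coeff (k + 1)) < p.coeff k ^ 2) : Hyperbolic p := by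
  classical
  obtain ⟨n, hn⟩ : ∃ n, n = p.natDegree := ⟨_, rfl⟩
  have hp0 : p ≠ 0 := by
    rintro rfl
    have := hpos 0 (by simp)
    simp at this
  -- the test points
  obtain ⟨y, hy0, hys⟩ : ∃ y : ℕ → ℝ, y 0 = 0 ∧
      ∀ k, y (k + 1) = -(2 * (p.coeff k / p.coeff (k + 1))) :=
    ⟨fun j => Nat.casesOn j 0 fun k => -(2 * (p.coeff k / p.coeff (k + 1))), rfl, fun k => rfl⟩
  have hsign : ∀ j ≤ n, 0 < (-1) ^ j * p.eval (y j) := by
    intro j hj
    rcases j with _ | k
    · rw [hy0, pow_zero, one_mul, ← coeff_zero_eq_eval_zero]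
      exact hpos 0 (Nat.zero_le _)
    · rw [hys]
      exact Kz_sign hpos h (by omega)
  have hdec : ∀ j < n, y (j + 1) < y j := by
    intro j hj
    rcases j with _ | k
    · rw [hy0, hys]
      have h1 := div_pos (hpos 0 (by omega)) (hpos (0 + 1) (by omega))
      linarith
    · rw [hys, hys]
      have h1 := h (k + 1) (by omega) (by omega)
      have h2 := hpos k (by omega)
      have h3 := hpos (k + 1) (by omega)
      have h4 := hpos (k + 1 + 1) (by omega)
      rw [Nat.add_sub_cancel] at h1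
      have h5 : p.coeff k / p.coeff (k + 1) < p.coeff (k + 1) / p.coeff (k + 1 + 1) := by
        rw [div_lt_div_iff₀ h3 h4]
        nlinarith [mul_pos h2 h4]
      linarith
  have hanti : ∀ i j, i ≤ j → j ≤ n → y j ≤ y i := by
    intro i j hij
    induction j, hij using Nat.le_induction with
    | base => intro _; exact le_rfl
    | succ j _ ih => intro hj; exact (hdec j (by omega)).le.trans (ih (by omega))
  have hroot : ∀ j < n, ∃ z, y (j + 1) < z ∧ z < y j ∧ p.eval z = 0 := by
    intro j hj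
    have h1 := hsign j (by omega)
    have h2 := hsign (j + 1) (by omega)
    have h3 := (hdec j hj).le
    obtain ⟨F, hF⟩ : ∃ F : ℝ → ℝ, ∀ z, F z = (-1) ^ j * p.eval z := ⟨_, fun z => rfl⟩
    have hFc : ContinuousOn F (Set.Icc (y (j + 1)) (y j)) := by
      have : F = fun z => (-1) ^ j * p.eval z := funext hF
      rw [this]
      exact (continuous_const.mul p.continuous).continuousOn
    have hF1 : F (y (j + 1)) < 0 := by
      rw [hF]
      rw [pow_succ] at h2
      linarith
    have hF2 : 0 < F (y j) := by rw [hF]; exact h1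
    obtain ⟨z, ⟨hz1, hz2⟩, hz3⟩ := intermediate_value_Icc h3 hFc ⟨hF1.le, hF2.le⟩
    refine ⟨z, lt_of_le_of_ne hz1 ?_, lt_of_le_of_ne hz2 ?_, ?_⟩
    · rintro rfl; exact hF1.ne hz3
    · rintro rfl; exact hF2.ne' hz3
    · rw [hF] at hz3
      rcases mul_eq_zero.1 hz3 with h4 | h4
      · exact absurd h4 (pow_ne_zero _ (by norm_num))
      · exact h4
  choose! z hz1 hz2 hz3 using hroot
  have hinj : Set.InjOn (fun j => (z j : ℂ)) (range n : Finset ℕ) := by
    intro i hi j hj hij
    have hij' : z i = z j := Complex.ofReal_injective hij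
    rw [mem_coe, mem_range] at hi hj
    rcases lt_trichotomy i j with hlt | heq | hgt
    · have h1 := hz1 i hi
      have h2 := hz2 j hj
      have h3 := hanti (i + 1) j hlt (by omega)
      linarith
    · exact heq
    · have h1 := hz1 j hj
      have h2 := hz2 i hi
      have h3 := hanti (j + 1) i hgt (by omega)
      linarith
  right
  intro w hw
  obtain ⟨q, hq⟩ : ∃ q : ℂ[X], q = p.map (algebraMap ℝ ℂ) := ⟨_, rfl⟩
  have hq0 : q ≠ 0 := by
    rw [hq]; exact (Polynomial.map_ne_zero_iff (algebraMap ℝ ℂ).injective).2 hp0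
  have hmem : ∀ v : ℂ, v ∈ q.roots.toFinset ↔ aeval v p = 0 := by
    intro v
    rw [Multiset.mem_toFinset, mem_roots hq0, IsRoot.def, hq, eval_map, aeval_def]
  have hsub : (range n).image (fun j => (z j : ℂ)) ⊆ q.roots.toFinset := by
    intro v hv
    obtain ⟨j, hj, rfl⟩ := Finset.mem_image.1 hv
    rw [mem_range] at hj
    rw [hmem]
    have h1 := hz3 j hj
    have h2 : aeval ((z j : ℝ) : ℂ) p = ((p.eval (z j) : ℝ) : ℂ) := by
      have := aeval_algebraMap_apply ℂ (z j) p
      rw [coe_aeval_eq_eval] at this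
      exact this
    rw [h2, h1, Complex.ofReal_zero]
  have hcard : q.roots.toFinset.card ≤ ((range n).image (fun j => (z j : ℂ))).card := by
    rw [Finset.card_image_of_injOn hinj, card_range]
    refine (Multiset.toFinset_card_le _).trans ((card_roots' q).trans ?_)
    rw [hq, hn]
    exact natDegree_map_le
  have heq := Finset.eq_of_subset_of_card_le hsub hcard
  have hw2 := (hmem w).2 hw
  rw [← heq] at hw2
  obtain ⟨j, -, rfl⟩ := Finset.mem_image.1 hw2
  exact Complex.ofReal_im _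

end Pool.Agent.MPd164ca
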