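import Pool.Agent.Lib.MP_d164ca_an.LS.Defs

/-!
# Quadratic polynomials at large scales
Plan: (c k)² + a (c k) + b = c² k(k-1) + (c² + a c) k + b. The polynomial B(x) = c² x² + (c² + a c) x + b has for large c
nonnegative coefficients and discriminant c² ((c + a)² - 4 b) ≥ 0. If b > 0: B = b (1 + s x) (1 + t x), s, t ≥ 0
(s + t = (c² + a c) / b, s t = c² / b), ms_finite with m = 0, N = 2 and ms_smul (Fac1.lean). If b = 0: B = (c² + a c) x (1 + s x),
ms_finite with m = 1, N = 1 (cf. ss_ms_lin, ss_ms_id in SSSuff.lean; ss_ms_mul there: products of multiplier sequences).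
-/

namespace Pool.Agent.MPd164ca

open Polynomial Finset

private theorem Quad_sum (c0 c1 c2 : ℝ) (k : ℕ) :
    ∑ j ∈ range (k + 1), ((if j = 0 then c0 else 0) + (if j = 1 then c1 else 0) +
      (if j = 2 then c2 else 0)) * (k.descFactorial j : ℝ) = c0 + c1 * k + c2 * (k * (k - 1)) := by
  rcases k with _ | _ | k
  · simp
  · simp [Finset.sum_range_succ]
  · rw [Finset.sum_range_succ', Finset.sum_range_succ', Finset.sum_range_succ']
    have h1 : ∀ j ∈ range k, ((if j + 1 + 1 + 1 = 0 then c0 else 0) +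
        (if j + 1 + 1 + 1 = 1 then c1 else 0) + (if j + 1 + 1 + 1 = 2 then c2 else 0)) *
        ((k + 1 + 1).descFactorial (j + 1 + 1 + 1) : ℝ) = 0 := by
      intro j _
      have e1 : ¬ (j + 1 + 1 + 1 = 0) := by omega
      have e2 : ¬ (j + 1 + 1 + 1 = 1) := by omega
      have e3 : ¬ (j + 1 + 1 + 1 = 2) := by omega
      rw [if_neg e1, if_neg e2, if_neg e3]; ring
    rw [Finset.sum_eq_zero h1]
    simp [Nat.descFactorial_succ]
    ring

private theorem Quad_two {s t : ℝ} (hs : 0 ≤ s) (ht : 0 ≤ t) :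
    IsMultiplierSequence (fun k : ℕ => 1 + (s + t) * k + s * t * (k * (k - 1))) := by
  have h := ms_finite (m := 0) (N := 2) (t := fun i => if i = 0 then s else t)
    (fun i => by split_ifs <;> assumption)
  have he : (fun k : ℕ => ∑ j ∈ range (k + 1),
      ((X ^ 0 * ∏ i ∈ range 2, (1 + C (if i = 0 then s else t) * X) : ℝ[X]).coeff j) *
        (k.descFactorial j : ℝ)) =
      fun k : ℕ => 1 + (s + t) * k + s * t * (k * (k - 1)) := by
    funext k
    rw [← Quad_sum]
    refine Finset.sum_congr rfl fun j _ => ?_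
    congr 1
    have h1 : (X ^ 0 * ∏ i ∈ range 2, (1 + C (if i = 0 then s else t) * X) : ℝ[X]) =
        C 1 + C (s + t) * X + C (s * t) * X ^ 2 := by
      rw [pow_zero, one_mul, Finset.prod_range_succ, Finset.prod_range_one, if_pos rfl,
        if_neg one_ne_zero, C_add, C_mul, C_1]
      ring
    rw [h1, coeff_add, coeff_add, coeff_C, coeff_C_mul, coeff_X, coeff_C_mul, coeff_X_pow]
    simp only [eq_comm (a := (1 : ℕ)), mul_ite, mul_one, mul_zero]
  rw [← he]
  exact h

private theorem Quad_one {s : ℝ} (hs : 0 ≤ s) :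
    IsMultiplierSequence (fun k : ℕ => (k : ℝ) + s * (k * (k - 1))) := by
  have h := ms_finite (m := 1) (N := 1) (t := fun _ => s) (fun _ => hs)
  have he : (fun k : ℕ => ∑ j ∈ range (k + 1),
      ((X ^ 1 * ∏ i ∈ range 1, (1 + C s * X) : ℝ[X]).coeff j) *
        (k.descFactorial j : ℝ)) =
      fun k : ℕ => (k : ℝ) + s * (k * (k - 1)) := by
    funext k
    have h0 := Quad_sum 0 1 s k
    rw [zero_add, one_mul] at h0
    rw [← h0]
    refine Finset.sum_congr rfl fun j _ => ?_
    congr 1
    have h1 : (X ^ 1 * ∏ i ∈ range 1, (1 + C s * X) : ℝ[X]) = X + C s * X ^ 2 := by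
      rw [pow_one, Finset.prod_range_one]
      ring
    rw [h1, coeff_add, coeff_X, coeff_C_mul, coeff_X_pow]
    simp only [eq_comm (a := (1 : ℕ)), mul_ite, mul_one, mul_zero, ite_self, zero_add]
  rw [← he]
  exact h

theorem ls_ms_quad (a : ℝ) {b : ℝ} (hb : 0 ≤ b) :
    ∃ C : ℝ, 0 < C ∧ ∀ c : ℝ, C ≤ c →
      IsMultiplierSequence (fun k : ℕ => (c * k) ^ 2 + a * (c * k) + b) := by
  refine ⟨2 * Real.sqrt b + |a| + 1, by positivity, fun c hc => ?_⟩
  have hsb := Real.sqrt_nonneg b
  have hsq := Real.sq_sqrt hb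
  have ha1 := neg_abs_le a
  have ha2 := abs_nonneg a
  have hc0 : 0 < c := by linarith
  have hca : 2 * Real.sqrt b + 1 ≤ c + a := by linarith
  have hca0 : 0 < c + a := by linarith
  rcases eq_or_lt_of_le hb with hb0 | hb0
  · have h := ms_smul (Quad_one (s := c / (c + a)) (by positivity)) (c * (c + a))
    have he : (fun k : ℕ => c * (c + a) * ((k : ℝ) + c / (c + a) * (k * (k - 1)))) =
        fun k : ℕ => (c * k) ^ 2 + a * (c * k) + b := by
      funext k
      rw [← hb0]
      field_simp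
      ring
    rw [← he]
    exact h
  · set S : ℝ := c * (c + a) / b with hS
    set P : ℝ := c ^ 2 / b with hP
    have hdisc : 0 ≤ S ^ 2 - 4 * P := by
      have : S ^ 2 - 4 * P = c ^ 2 * ((c + a) ^ 2 - 4 * b) / b ^ 2 := by
        rw [hS, hP]; field_simp
      rw [this]
      have h2 : 0 ≤ (c + a) ^ 2 - 4 * b := by nlinarith
      positivity
    have hS0 : 0 ≤ S := by positivity
    have hP0 : 0 ≤ P := by positivity
    have hr := Real.sqrt_nonneg (S ^ 2 - 4 * P)
    have hr2 := Real.sq_sqrt hdisc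
    have hrS : Real.sqrt (S ^ 2 - 4 * P) ≤ S := by
      apply Real.sqrt_le_iff.2
      exact ⟨hS0, by linarith⟩
    have h := ms_smul (Quad_two (s := (S + Real.sqrt (S ^ 2 - 4 * P)) / 2)
      (t := (S - Real.sqrt (S ^ 2 - 4 * P)) / 2) (by linarith) (by linarith)) b
    have hsum : (S + Real.sqrt (S ^ 2 - 4 * P)) / 2 + (S - Real.sqrt (S ^ 2 - 4 * P)) / 2 = S := by
      ring
    have hprod : (S + Real.sqrt (S ^ 2 - 4 * P)) / 2 * ((S - Real.sqrt (S ^ 2 - 4 * P)) / 2) =
        P := by nlinarith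
    rw [hsum, hprod] at h
    have he : (fun k : ℕ => b * (1 + S * (k : ℝ) + P * (k * (k - 1)))) =
        fun k : ℕ => (c * k) ^ 2 + a * (c * k) + b := by
      funext k
      rw [hS, hP]
      field_simp
      ring
    rw [← he]
    exact h

theorem ls_ms_linear {a c : ℝ} (ha : 0 ≤ a) (hc : 0 < c) :
    IsMultiplierSequence (fun k : ℕ => c * k + a) := by
  rcases eq_or_lt_of_le ha with h0 | h0
  · have h := ms_smul ss_ms_id c
    have he : (fun k : ℕ => c * (k : ℝ)) = fun k : ℕ => c * k + a := by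
      funext k
      rw [← h0, add_zero]
    rw [← he]
    exact h
  · have h := ms_smul (ss_ms_lin (t := c / a) (by positivity)) a
    have he : (fun k : ℕ => a * (1 + c / a * (k : ℝ))) = fun k : ℕ => c * k + a := by
      funext k
      field_simp
      ring
    rw [← he]
    exact h

end Pool.Agent.MPd164ca
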