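import Pool.Agent.Lib.MP_d164ca_an.LS.Rat

/-!
# Rapidly decaying sequences are multiplier sequences
Plan: fix N. Φ = ∑_(k ≤ N) γ_k / k! x^k. If γ 0 > 0: coefficients positive, a_k² / (a_(k-1) a_(k+1)) = (k+1)/k γ_k²/(γ_(k-1) γ_(k+1)) ≥ 9, so
Φ is hyperbolic (ls_hyperbolic_of_ratio) and Φ = γ_0 ∏ (1 + t_i x), t_i ≥ 0 (fac_pos, Fac2.lean). For h > 0 the polynomial
Φ(x / h) = γ_0 ∏ (1 + (t_i / h) x) and ms_finite (m = 0), ms_geom (factor γ_0 h^k) give: k ↦ ∑_(j ≤ k) (coefficient j of Φ) k(k-1)..(k-j+1) h^(k-j)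
is a multiplier sequence. h = 1/(n+1) → 0 and ss_ms_limit (SSSuff.lean): k ↦ γ_k for k ≤ N, 0 for k > N, is one. N → ∞, ss_ms_limit again.
If γ 0 = 0: approximate γ by sequences with a small positive first term, ss_ms_limit.
-/

namespace Pool.Agent.MPd164ca

open Polynomial Finset Filter Topology

/-- the truncated generating polynomial -/
private noncomputable def Ser_phi (γ : ℕ → ℝ) (N : ℕ) : ℝ[X] :=
  ∑ k ∈ range (N + 1), monomial k (γ k / (k.factorial : ℝ))

private theorem Ser_phi_coeff (γ : ℕ → ℝ) (N k : ℕ) :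
    (Ser_phi γ N).coeff k = if k ≤ N then γ k / (k.factorial : ℝ) else 0 := by
  unfold Ser_phi
  rw [finsetSum_coeff]
  simp only [coeff_monomial]
  rw [Finset.sum_ite_eq']
  simp only [Finset.mem_range, Nat.lt_succ_iff]

private theorem Ser_phi_natDegree {γ : ℕ → ℝ} (hpos : ∀ k, 0 < γ k) (N : ℕ) :
    (Ser_phi γ N).natDegree = N := by
  apply le_antisymm
  · rw [natDegree_le_iff_coeff_eq_zero]
    intro k hk
    rw [Ser_phi_coeff, if_neg (by omega)]
  · apply le_natDegree_of_ne_zero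
    rw [Ser_phi_coeff, if_pos le_rfl]
    have h1 := hpos N
    have h2 : (0 : ℝ) < (N.factorial : ℝ) := by exact_mod_cast Nat.factorial_pos N
    positivity

private theorem Ser_phi_hyp {γ : ℕ → ℝ} (hpos : ∀ k, 0 < γ k)
    (h : ∀ k, 1 ≤ k → 9 * (γ (k - 1) * γ (k + 1)) ≤ γ k ^ 2) (N : ℕ) :
    Hyperbolic (Ser_phi γ N) := by
  apply ls_hyperbolic_of_ratio
  · intro k hk
    rw [Ser_phi_natDegree hpos] at hk
    rw [Ser_phi_coeff, if_pos hk]
    have h1 := hpos k
    have h2 : (0 : ℝ) < (k.factorial : ℝ) := by exact_mod_cast Nat.factorial_pos k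
    positivity
  · intro k hk1 hkN
    rw [Ser_phi_natDegree hpos] at hkN
    rw [Ser_phi_coeff, Ser_phi_coeff, Ser_phi_coeff, if_pos (by omega), if_pos (by omega),
      if_pos (by omega)]
    obtain ⟨m, rfl⟩ : ∃ m, k = m + 1 := ⟨k - 1, by omega⟩
    have hm := h (m + 1) hk1
    simp only [Nat.add_sub_cancel] at hm ⊢
    have hf : (0 : ℝ) < (m.factorial : ℝ) := by exact_mod_cast Nat.factorial_pos m
    have hf1 : ((m + 1).factorial : ℝ) = ((m : ℝ) + 1) * (m.factorial : ℝ) := by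
      rw [Nat.factorial_succ]; push_cast; ring
    have hf2 : ((m + 1 + 1).factorial : ℝ) = ((m : ℝ) + 2) * (((m : ℝ) + 1) * (m.factorial : ℝ)) := by
      rw [Nat.factorial_succ (m + 1), Nat.factorial_succ]; push_cast; ring
    rw [hf2, hf1]
    have hm0 : (0 : ℝ) ≤ (m : ℝ) := Nat.cast_nonneg m
    have hg0 := hpos m
    have hg2 := hpos (m + 1 + 1)
    have hlhs : 9 * (γ m / (m.factorial : ℝ) *
        (γ (m + 1 + 1) / (((m : ℝ) + 2) * (((m : ℝ) + 1) * (m.factorial : ℝ))))) =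
        (9 * (γ m * γ (m + 1 + 1))) * ((m : ℝ) + 1) /
          (((m : ℝ) + 2) * (((m : ℝ) + 1) * (m.factorial : ℝ)) ^ 2) := by
      field_simp
    rw [hlhs, div_pow, div_le_div_iff₀ (by positivity) (by positivity)]
    have hD : (0 : ℝ) < (((m : ℝ) + 1) * (m.factorial : ℝ)) ^ 2 := by positivity
    have hkey : (9 * (γ m * γ (m + 1 + 1))) * ((m : ℝ) + 1) ≤
        γ (m + 1) ^ 2 * ((m : ℝ) + 2) := by
      have e1 : (9 * (γ m * γ (m + 1 + 1))) * ((m : ℝ) + 1) ≤
          γ (m + 1) ^ 2 * ((m : ℝ) + 1) := mul_le_mul_of_nonneg_right hm (by positivity)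
      nlinarith [sq_nonneg (γ (m + 1))]
    calc (9 * (γ m * γ (m + 1 + 1))) * ((m : ℝ) + 1) * (((m : ℝ) + 1) * (m.factorial : ℝ)) ^ 2
        ≤ (γ (m + 1) ^ 2 * ((m : ℝ) + 2)) * (((m : ℝ) + 1) * (m.factorial : ℝ)) ^ 2 :=
          mul_le_mul_of_nonneg_right hkey hD.le
      _ = γ (m + 1) ^ 2 * (((m : ℝ) + 2) * (((m : ℝ) + 1) * (m.factorial : ℝ)) ^ 2) := by ring

private theorem Ser_fac {γ : ℕ → ℝ} (hpos : ∀ k, 0 < γ k)
    (h : ∀ k, 1 ≤ k → 9 * (γ (k - 1) * γ (k + 1)) ≤ γ k ^ 2) (N : ℕ) :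
    ∃ t : ℕ → ℝ, (∀ j, 0 ≤ t j) ∧
      Ser_phi γ N = C (γ 0) * ∏ i ∈ range N, (1 + C (t i) * X) := by
  have hN := Ser_phi_natDegree hpos N
  obtain ⟨s, -, hs0, -, hs⟩ := fac_pos (Ser_phi_hyp hpos h N) (by
    intro k hk
    rw [hN] at hk
    rw [Ser_phi_coeff, if_pos hk]
    have h1 := hpos k
    have h2 : (0 : ℝ) < (k.factorial : ℝ) := by exact_mod_cast Nat.factorial_pos k
    positivity)
  refine ⟨s, hs0, ?_⟩
  apply Polynomial.funext
  intro x
  have hx := hs (x : ℂ)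
  rw [hN] at hx
  have hc : (Ser_phi γ N).coeff 0 = γ 0 := by
    rw [Ser_phi_coeff, if_pos (Nat.zero_le _)]; simp
  rw [hc] at hx
  have hl : aeval (x : ℂ) (Ser_phi γ N) = (((Ser_phi γ N).eval x : ℝ) : ℂ) := by
    have := Polynomial.aeval_algebraMap_apply ℂ x (Ser_phi γ N)
    simpa using this
  rw [hl] at hx
  have hx' : (Ser_phi γ N).eval x = γ 0 * ∏ j ∈ range N, (1 + s j * x) := by
    exact_mod_cast hx
  rw [hx', eval_mul, eval_C, eval_prod]
  simp

private theorem Ser_scaled {γ : ℕ → ℝ} (hpos : ∀ k, 0 < γ k)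
    (h : ∀ k, 1 ≤ k → 9 * (γ (k - 1) * γ (k + 1)) ≤ γ k ^ 2) (N : ℕ) {σ : ℝ} (hσ : 0 < σ) :
    IsMultiplierSequence (fun k => ∑ j ∈ range (k + 1),
      (Ser_phi γ N).coeff j * σ ^ (k - j) * (k.descFactorial j : ℝ)) := by
  obtain ⟨t, ht, hfac⟩ := Ser_fac hpos h N
  have h1 := ms_finite (m := 0) (N := N) (t := fun i => t i / σ)
    (fun j => div_nonneg (ht j) hσ.le)
  have h2 := ms_geom h1 (γ 0) hσ
  have he : (fun k : ℕ => ∑ j ∈ range (k + 1),
      (Ser_phi γ N).coeff j * σ ^ (k - j) * (k.descFactorial j : ℝ)) =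
      fun k : ℕ => γ 0 * σ ^ k * ∑ j ∈ range (k + 1),
        ((X ^ 0 * ∏ i ∈ range N, (1 + C (t i / σ) * X) : ℝ[X]).coeff j) *
          (k.descFactorial j : ℝ) := by
    funext k
    rw [Finset.mul_sum]
    refine Finset.sum_congr rfl fun j hj => ?_
    have hjk : j ≤ k := by
      rw [Finset.mem_range] at hj; omega
    have hcomp : (X ^ 0 * ∏ i ∈ range N, (1 + C (t i / σ) * X) : ℝ[X]) =
        (∏ i ∈ range N, (1 + C (t i) * X) : ℝ[X]).comp (C σ⁻¹ * X) := by
      rw [pow_zero, one_mul, Polynomial.prod_comp]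
      refine Finset.prod_congr rfl fun i _ => ?_
      simp only [add_comp, one_comp, mul_comp, C_comp, X_comp]
      rw [← mul_assoc, ← C_mul, div_eq_mul_inv]
    rw [hcomp, comp_C_mul_X_coeff, hfac, coeff_C_mul]
    have hpw : σ ^ k = σ ^ (k - j) * σ ^ j := by
      rw [← pow_add]; congr 1; omega
    rw [hpw]
    have hsj : σ ^ j * σ⁻¹ ^ j = 1 := by
      rw [← mul_pow, mul_inv_cancel₀ hσ.ne', one_pow]
    linear_combination (-(γ 0 * (∏ i ∈ range N, (1 + C (t i) * X) : ℝ[X]).coeff j *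
      σ ^ (k - j) * (k.descFactorial j : ℝ))) * hsj
  rw [he]
  exact h2

private theorem Ser_trunc {γ : ℕ → ℝ} (hpos : ∀ k, 0 < γ k)
    (h : ∀ k, 1 ≤ k → 9 * (γ (k - 1) * γ (k + 1)) ≤ γ k ^ 2) (N : ℕ) :
    IsMultiplierSequence (fun k => if k ≤ N then γ k else 0) := by
  refine ss_ms_limit (g := fun n k => ∑ j ∈ range (k + 1),
      (Ser_phi γ N).coeff j * (1 / ((n : ℝ) + 1)) ^ (k - j) * (k.descFactorial j : ℝ))
    (fun n => Ser_scaled hpos h N (by positivity)) ?_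
  intro k
  have hcont : Continuous (fun σ : ℝ => ∑ j ∈ range (k + 1),
      (Ser_phi γ N).coeff j * σ ^ (k - j) * (k.descFactorial j : ℝ)) := by
    fun_prop
  have hlim := (hcont.tendsto 0).comp (tendsto_one_div_add_atTop_nhds_zero_nat (𝕜 := ℝ))
  have hval : (∑ j ∈ range (k + 1),
      (Ser_phi γ N).coeff j * (0 : ℝ) ^ (k - j) * (k.descFactorial j : ℝ)) =
      if k ≤ N then γ k else 0 := by
    rw [Finset.sum_range_succ, Finset.sum_eq_zero, zero_add]
    · rw [Nat.sub_self, pow_zero, mul_one, Nat.descFactorial_self, Ser_phi_coeff]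
      split_ifs with hk
      · have h2 : (k.factorial : ℝ) ≠ 0 := by exact_mod_cast (Nat.factorial_pos k).ne'
        field_simp
      · simp
    · intro j hj
      rw [Finset.mem_range] at hj
      rw [zero_pow (by omega)]
      ring
  rw [hval] at hlim
  exact hlim

private theorem Ser_pos {γ : ℕ → ℝ} (hpos : ∀ k, 0 < γ k)
    (h : ∀ k, 1 ≤ k → 9 * (γ (k - 1) * γ (k + 1)) ≤ γ k ^ 2) : IsMultiplierSequence γ := by
  refine ss_ms_limit (g := fun N k => if k ≤ N then γ k else 0)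
    (fun N => Ser_trunc hpos h N) ?_
  intro k
  refine tendsto_const_nhds.congr' ?_
  filter_upwards [eventually_ge_atTop k] with N hN
  rw [if_pos hN]

theorem ls_ms_of_ratio {γ : ℕ → ℝ} (h0 : 0 ≤ γ 0) (hpos : ∀ k, 1 ≤ k → 0 < γ k)
    (h : ∀ k, 1 ≤ k → 9 * (γ (k - 1) * γ (k + 1)) ≤ γ k ^ 2) : IsMultiplierSequence γ := by
  rcases h0.lt_or_eq with h0' | h0'
  · refine Ser_pos (fun k => ?_) h
    rcases Nat.eq_zero_or_pos k with rfl | hk
    · exact h0'
    · exact hpos k hk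
  · have h1 : 0 < γ 1 := hpos 1 le_rfl
    have h2 : 0 < γ 2 := hpos 2 (by norm_num)
    refine ss_ms_limit (g := fun n k => if k = 0 then γ 1 ^ 2 / (9 * γ 2) * (1 / ((n : ℝ) + 1))
      else γ k) (fun n => ?_) ?_
    · have hn : (0 : ℝ) < (n : ℝ) + 1 := by positivity
      refine Ser_pos (fun k => ?_) (fun k hk => ?_)
      · by_cases hk : k = 0
        · rw [if_pos hk]; positivity
        · rw [if_neg hk]; exact hpos k (by omega)
      · rw [if_neg (show ¬ k = 0 by omega), if_neg (show ¬ k + 1 = 0 by omega)]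
        by_cases hk1 : k = 1
        · subst hk1
          rw [if_pos (by norm_num)]
          have e : 9 * (γ 1 ^ 2 / (9 * γ 2) * (1 / ((n : ℝ) + 1)) * γ (1 + 1)) =
              γ 1 ^ 2 * (1 / ((n : ℝ) + 1)) := by
            have : γ (1 + 1) = γ 2 := rfl
            rw [this]
            field_simp
          rw [e]
          have hle : 1 / ((n : ℝ) + 1) ≤ 1 := by
            rw [div_le_one hn]
            have : (0 : ℝ) ≤ n := Nat.cast_nonneg n
            linarith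
          calc γ 1 ^ 2 * (1 / ((n : ℝ) + 1)) ≤ γ 1 ^ 2 * 1 :=
                mul_le_mul_of_nonneg_left hle (by positivity)
            _ = γ 1 ^ 2 := mul_one _
        · rw [if_neg (show ¬ k - 1 = 0 by omega)]
          exact h k hk
    · intro k
      by_cases hk : k = 0
      · subst hk
        simp only [if_true]
        rw [← h0']
        have := (tendsto_one_div_add_atTop_nhds_zero_nat (𝕜 := ℝ)).const_mul (γ 1 ^ 2 / (9 * γ 2))
        rw [mul_zero] at this
        exact this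
      · simp only [if_neg hk]
        exact tendsto_const_nhds

end Pool.Agent.MPd164ca
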