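import Pool.Agent.Lib.MP_d164ca_an.LS.Asm

/-!
# Large shifts
-/

namespace Pool.Agent.MPd164ca

open Polynomial Finset Filter Topology

private theorem Sh_sum (c0 c1 c2 : ℝ) (k : ℕ) :
    ∑ j ∈ range (k + 1), ((if j = 0 then c0 else 0) + (if j = 1 then c1 else 0) +
      (if j = 2 then c2 else 0)) * (k.descFactorial j : ℝ) = c0 + c1 * k + c2 * (k * (k - 1)) := by
  rcases k with _ | _ | k
  · simp
  · simp [Finset.sum_range_succ]
  · rw [Finset.sum_range_succ', Finset.sum_range_succ', Finset.sum_range_succ']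
    have h1 : ∀ j ∈ range k, ((if j + 1 + 1 + 1 = 0 then c0 else 0) +
        (if j + 1 + 1 + 1 = 1 then c1 else 0) + (if j + 1 + 1 + 1 = 2 then c2 else 0)) *
        ((k + 1 + 1).descFactorial (j + 1 + 1 + 1) : ℝ) = 0 := by
      intro j _
      have e1 : ¬ (j + 1 + 1 + 1 = 0) := by omega
      have e2 : ¬ (j + 1 + 1 + 1 = 1) := by omega
      have e3 : ¬ (j + 1 + 1 + 1 = 2) := by omega
      rw [if_neg e1, if_neg e2, if_neg e3]; ring
    rw [Finset.sum_eq_zero h1]
    simp [Nat.descFactorial_succ]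
    ring

private theorem Sh_two {s t : ℝ} (hs : 0 ≤ s) (ht : 0 ≤ t) :
    IsMultiplierSequence (fun k : ℕ => 1 + (s + t) * k + s * t * (k * (k - 1))) := by
  have h := ms_finite (m := 0) (N := 2) (t := fun i => if i = 0 then s else t)
    (fun i => by split_ifs <;> assumption)
  have he : (fun k : ℕ => ∑ j ∈ range (k + 1),
      ((X ^ 0 * ∏ i ∈ range 2, (1 + C (if i = 0 then s else t) * X) : ℝ[X]).coeff j) *
        (k.descFactorial j : ℝ)) =
      fun k : ℕ => 1 + (s + t) * k + s * t * (k * (k - 1)) := by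
    funext k
    rw [← Sh_sum]
    refine Finset.sum_congr rfl fun j _ => ?_
    congr 1
    have h1 : (X ^ 0 * ∏ i ∈ range 2, (1 + C (if i = 0 then s else t) * X) : ℝ[X]) =
        C 1 + C (s + t) * X + C (s * t) * X ^ 2 := by
      rw [pow_zero, one_mul, Finset.prod_range_succ, Finset.prod_range_one, if_pos rfl,
        if_neg one_ne_zero, C_add, C_mul, C_1]
      ring
    rw [h1, coeff_add, coeff_add, coeff_C, coeff_C_mul, coeff_X, coeff_C_mul, coeff_X_pow]
    simp only [eq_comm (a := (1 : ℕ)), mul_ite, mul_one, mul_zero]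
  rw [← he]
  exact h

private theorem Sh_disc {A B : ℝ} (hA : 0 ≤ A) (hB : 0 < B) (hd : 0 ≤ A ^ 2 - 4 * B) :
    IsMultiplierSequence (fun k : ℕ => (k : ℝ) * (k - 1) + A * k + B) := by
  set S : ℝ := A / B with hS
  set P : ℝ := 1 / B with hP
  have hdisc : 0 ≤ S ^ 2 - 4 * P := by
    have : S ^ 2 - 4 * P = (A ^ 2 - 4 * B) / B ^ 2 := by
      rw [hS, hP]; field_simp
    rw [this]
    positivity
  have hS0 : 0 ≤ S := by positivity
  have hP0 : 0 ≤ P := by positivity
  have hr := Real.sqrt_nonneg (S ^ 2 - 4 * P)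
  have hr2 := Real.sq_sqrt hdisc
  have hrS : Real.sqrt (S ^ 2 - 4 * P) ≤ S := by
    apply Real.sqrt_le_iff.2
    exact ⟨hS0, by linarith⟩
  have h := ms_smul (Sh_two (s := (S + Real.sqrt (S ^ 2 - 4 * P)) / 2)
    (t := (S - Real.sqrt (S ^ 2 - 4 * P)) / 2) (by linarith) (by linarith)) B
  have hsum : (S + Real.sqrt (S ^ 2 - 4 * P)) / 2 + (S - Real.sqrt (S ^ 2 - 4 * P)) / 2 = S := by
    ring
  have hprod : (S + Real.sqrt (S ^ 2 - 4 * P)) / 2 * ((S - Real.sqrt (S ^ 2 - 4 * P)) / 2) =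
      P := by nlinarith
  rw [hsum, hprod] at h
  have he : (fun k : ℕ => B * (1 + S * (k : ℝ) + P * (k * (k - 1)))) =
      fun k : ℕ => (k : ℝ) * (k - 1) + A * k + B := by
    funext k
    rw [hS, hP]
    field_simp
    ring
  rw [← he]
  exact h

/-- Eventually all shifts of `P` give multiplier sequences. -/
private def ShGood (P : ℝ[X]) : Prop :=
  ∃ S : ℝ, ∀ s : ℝ, S ≤ s → IsMultiplierSequence (fun k : ℕ => P.eval (s + k))

private theorem Sh_mul {P Q : ℝ[X]} (hP : ShGood P) (hQ : ShGood Q) : ShGood (P * Q) := by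
  obtain ⟨A, hPA⟩ := hP
  obtain ⟨B, hQB⟩ := hQ
  refine ⟨max A B, fun c hc => ?_⟩
  have h := ss_ms_mul (hPA c (le_trans (le_max_left _ _) hc)) (hQB c (le_trans (le_max_right _ _) hc))
  simpa only [eval_mul] using h

private theorem Sh_C (a : ℝ) : ShGood (C a) := by
  refine ⟨0, fun s _ => ?_⟩
  have h := ms_smul ss_ms_one a
  simpa only [eval_C, mul_one] using h

private theorem Sh_lin (a : ℝ) : ShGood (X + C a) := by
  refine ⟨-a, fun s hs => ?_⟩
  have h := ls_ms_linear (a := s + a) (c := 1) (by linarith) one_pos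
  have he : (fun k : ℕ => 1 * (k : ℝ) + (s + a)) = fun k : ℕ => (X + C a : ℝ[X]).eval (s + k) := by
    funext k
    rw [eval_add, eval_X, eval_C]
    ring
  rw [← he]
  exact h

private theorem Sh_quad (a b : ℝ) : ShGood (X ^ 2 + C a * X + C b) := by
  refine ⟨1 + |a| + |b|, fun s hs => ?_⟩
  have ha := neg_abs_le a
  have ha' := abs_nonneg a
  have hb := neg_abs_le b
  have hb' := le_abs_self b
  have hb'' := abs_nonneg b
  have h1 : 0 ≤ 2 * s + a + 1 := by linarith
  have h2 : 0 < s ^ 2 + a * s + b := by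
    have e1 : 1 + |b| ≤ s + a := by linarith
    have e2 : 1 ≤ s := by linarith
    nlinarith
  have h := Sh_disc (A := 2 * s + a + 1) (B := s ^ 2 + a * s + b) h1 h2 (by
    have : (2 * s + a + 1) ^ 2 - 4 * (s ^ 2 + a * s + b) = 4 * s + (a + 1) ^ 2 - 4 * b := by ring
    rw [this]
    nlinarith [sq_nonneg (a + 1)])
  have he : (fun k : ℕ => (k : ℝ) * (k - 1) + (2 * s + a + 1) * k + (s ^ 2 + a * s + b)) =
      fun k : ℕ => (X ^ 2 + C a * X + C b : ℝ[X]).eval (s + k) := by
    funext k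
    rw [eval_add, eval_add, eval_mul, eval_pow, eval_X, eval_C, eval_C]
    ring
  rw [← he]
  exact h

private theorem Sh_deg2 (p : ℝ[X]) (hp : p.degree ≤ 2) : ShGood p := by
  rw [eq_quadratic_of_degree_le_two hp]
  by_cases h2 : p.coeff 2 = 0
  · by_cases h1 : p.coeff 1 = 0
    · rw [h2, h1, C_0, zero_mul, zero_mul, zero_add, zero_add]
      exact Sh_C _
    · have h3 : C (p.coeff 2) * X ^ 2 + C (p.coeff 1) * X + C (p.coeff 0) =
          C (p.coeff 1) * (X + C (p.coeff 0 / p.coeff 1)) := by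
        rw [h2, C_0, zero_mul, zero_add, mul_add, ← C_mul, mul_div_cancel₀ _ h1]
      rw [h3]
      exact Sh_mul (Sh_C _) (Sh_lin _)
  · have h3 : C (p.coeff 2) * X ^ 2 + C (p.coeff 1) * X + C (p.coeff 0) =
        C (p.coeff 2) * (X ^ 2 + C (p.coeff 1 / p.coeff 2) * X + C (p.coeff 0 / p.coeff 2)) := by
      rw [mul_add, mul_add, ← mul_assoc, ← C_mul, mul_div_cancel₀ _ h2, ← C_mul,
        mul_div_cancel₀ _ h2]
    rw [h3]
    exact Sh_mul (Sh_C _) (Sh_quad _ _)

theorem sh_poly (P : ℝ[X]) :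
    ∃ S : ℝ, ∀ s : ℝ, S ≤ s → IsMultiplierSequence (fun k : ℕ => P.eval (s + k)) := by
  change ShGood P
  refine UniqueFactorizationMonoid.induction_on_prime P ?_ ?_ ?_
  · rw [← C_0]
    exact Sh_C 0
  · intro x hx
    obtain ⟨r, -, rfl⟩ := Polynomial.isUnit_iff.1 hx
    exact Sh_C r
  · intro a p _ hp ha
    exact Sh_mul (Sh_deg2 p hp.irreducible.degree_le_two) ha

end Pool.Agent.MPd164ca
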