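import Pool.Agent.Lib.MP_d164ca_an.LS.Asm

/-!
# Large shifts: the second difference and the ratio
-/

namespace Pool.Agent.MPd164ca

open Polynomial Finset Filter Topology

private theorem ShB_bounds {x : ℝ} (hx : 1 ≤ x) (n : ℕ) :
    2 * x ^ n ≤ (x + 1) ^ (n + 2) + (x - 1) ^ (n + 2) - 2 * x ^ (n + 2) ∧
    (x + 1) ^ (n + 2) + (x - 1) ^ (n + 2) - 2 * x ^ (n + 2) ≤ (2 ^ (n + 3) - 2) * x ^ n ∧
    0 ≤ (x + 1) ^ (n + 2) - (x - 1) ^ (n + 2) ∧
    (x + 1) ^ (n + 2) - (x - 1) ^ (n + 2) ≤ (2 ^ (n + 3) - 2) * x ^ (n + 1) := by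
  induction n with
  | zero =>
    refine ⟨?_, ?_, ?_, ?_⟩ <;> norm_num <;> nlinarith
  | succ n ih =>
    obtain ⟨h1, h2, h3, h4⟩ := ih
    have hx0 : 0 ≤ x := by linarith
    have e1 : (x + 1) ^ (n + 1 + 2) + (x - 1) ^ (n + 1 + 2) - 2 * x ^ (n + 1 + 2) =
        x * ((x + 1) ^ (n + 2) + (x - 1) ^ (n + 2) - 2 * x ^ (n + 2)) +
          ((x + 1) ^ (n + 2) - (x - 1) ^ (n + 2)) := by ring
    have e2 : (x + 1) ^ (n + 1 + 2) - (x - 1) ^ (n + 1 + 2) =
        x * ((x + 1) ^ (n + 2) - (x - 1) ^ (n + 2)) +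
          ((x + 1) ^ (n + 2) + (x - 1) ^ (n + 2) - 2 * x ^ (n + 2)) + 2 * x ^ (n + 2) := by ring
    have h1' := mul_le_mul_of_nonneg_left h1 hx0
    have h2' := mul_le_mul_of_nonneg_left h2 hx0
    have h3' := mul_nonneg hx0 h3
    have h4' := mul_le_mul_of_nonneg_left h4 hx0
    have hp0 : 0 ≤ x ^ n := pow_nonneg hx0 n
    have hp1 : 0 ≤ x ^ (n + 1) := pow_nonneg hx0 _
    have hp2 : 0 ≤ x ^ (n + 2) := pow_nonneg hx0 _
    have hle : x ^ n ≤ x ^ (n + 2) := pow_le_pow_right₀ hx (by omega)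
    have h2c : (0 : ℝ) ≤ 2 ^ (n + 3) - 2 := by
      have : (2 : ℝ) ^ 1 ≤ 2 ^ (n + 3) := pow_le_pow_right₀ (by norm_num) (by omega)
      linarith
    have hle' := mul_le_mul_of_nonneg_left hle h2c
    have p1 : x ^ (n + 1) = x * x ^ n := by ring
    have p2 : x ^ (n + 2) = x * x ^ (n + 1) := by ring
    have p3 : (2 : ℝ) ^ (n + 1 + 3) = 2 * 2 ^ (n + 3) := by ring
    refine ⟨?_, ?_, ?_, ?_⟩
    · rw [e1, p1]; linarith
    · rw [e1, p3]
      have : x * ((2 ^ (n + 3) - 2) * x ^ n) = (2 ^ (n + 3) - 2) * x ^ (n + 1) := by ring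
      rw [this] at h2'
      have hh : (2 * 2 ^ (n + 3) - 2) * x ^ (n + 1) =
        (2 ^ (n + 3) - 2) * x ^ (n + 1) + (2 ^ (n + 3) - 2) * x ^ (n + 1) + 2 * x ^ (n + 1) := by
        ring
      rw [hh]; linarith
    · rw [e2]
      nlinarith
    · rw [e2, p3]
      have : x * ((2 ^ (n + 3) - 2) * x ^ (n + 1)) = (2 ^ (n + 3) - 2) * x ^ (n + 2) := by ring
      rw [this] at h4'
      have hh : (2 * 2 ^ (n + 3) - 2) * x ^ (n + 1 + 1) =
        (2 ^ (n + 3) - 2) * x ^ (n + 2) + (2 ^ (n + 3) - 2) * x ^ (n + 2) + 2 * x ^ (n + 2) := by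
        ring
      rw [hh]; linarith

/-- degree at least three: the second difference is very negative -/
private theorem ShB_diff3 {q : ℝ[X]} (hq : 3 ≤ q.natDegree) (hl : q.leadingCoeff < 0) :
    ∃ X0 : ℝ, ∀ x : ℝ, X0 ≤ x → q.eval (x + 1) + q.eval (x - 1) - 2 * q.eval x ≤ -35 := by
  obtain ⟨m, hm⟩ : ∃ m, q.natDegree = m + 3 := ⟨q.natDegree - 3, by omega⟩
  set B : ℝ := ∑ i ∈ range (m + 3), |q.coeff i| * 2 ^ (i + 1) with hB
  have hlc : q.coeff (m + 3) < 0 := by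
    rw [← hm]; exact hl
  refine ⟨max 1 ((35 + B) / (-q.coeff (m + 3))), ?_⟩
  intro x hx
  have hx1 : 1 ≤ x := le_trans (le_max_left _ _) hx
  have hx2 : (35 + B) / (-q.coeff (m + 3)) ≤ x := le_trans (le_max_right _ _) hx
  have hx0 : 0 ≤ x := by linarith
  have hkey : q.coeff (m + 3) * x + B ≤ -35 := by
    rw [div_le_iff₀ (by linarith)] at hx2
    linarith
  have hsum : q.eval (x + 1) + q.eval (x - 1) - 2 * q.eval x =
      ∑ i ∈ range (m + 3 + 1), q.coeff i *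
        ((x + 1) ^ i + (x - 1) ^ i - 2 * x ^ i) := by
    rw [Polynomial.eval_eq_sum_range, Polynomial.eval_eq_sum_range,
      Polynomial.eval_eq_sum_range, hm, Finset.mul_sum, ← Finset.sum_add_distrib,
      ← Finset.sum_sub_distrib]
    refine Finset.sum_congr rfl fun i _ => ?_
    ring
  rw [hsum, Finset.sum_range_succ]
  have hterm : ∀ i ∈ range (m + 3), q.coeff i *
        ((x + 1) ^ i + (x - 1) ^ i - 2 * x ^ i) ≤ (|q.coeff i| * 2 ^ (i + 1)) * x ^ m := by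
    intro i hi
    rw [Finset.mem_range] at hi
    have hR : 0 ≤ (|q.coeff i| * 2 ^ (i + 1)) * x ^ m := by positivity
    rcases i with _ | _ | n
    · have : q.coeff 0 * ((x + 1) ^ 0 + (x - 1) ^ 0 - 2 * x ^ 0) = 0 := by norm_num
      rw [this]; exact hR
    · have : q.coeff (0 + 1) *
        ((x + 1) ^ (0 + 1) + (x - 1) ^ (0 + 1) - 2 * x ^ (0 + 1)) = 0 := by ring
      rw [this]; exact hR
    · obtain ⟨h1, h2, -, -⟩ := ShB_bounds hx1 n
      have hn : n + 1 + 1 = n + 2 := rfl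
      rw [hn]
      have he0 : 0 ≤ (x + 1) ^ (n + 2) + (x - 1) ^ (n + 2) - 2 * x ^ (n + 2) :=
        le_trans (by positivity) h1
      have he1 : (x + 1) ^ (n + 2) + (x - 1) ^ (n + 2) - 2 * x ^ (n + 2) ≤
          2 ^ (n + 3) * x ^ m := by
        calc _ ≤ (2 ^ (n + 3) - 2) * x ^ n := h2
          _ ≤ 2 ^ (n + 3) * x ^ n := by
              apply mul_le_mul_of_nonneg_right _ (by positivity)
              linarith
          _ ≤ 2 ^ (n + 3) * x ^ m := by
              apply mul_le_mul_of_nonneg_left _ (by positivity)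
              exact pow_le_pow_right₀ hx1 (by omega)
      calc q.coeff (n + 2) * ((x + 1) ^ (n + 2) + (x - 1) ^ (n + 2) - 2 * x ^ (n + 2))
          ≤ |q.coeff (n + 2)| * ((x + 1) ^ (n + 2) + (x - 1) ^ (n + 2) - 2 * x ^ (n + 2)) := by
              apply mul_le_mul_of_nonneg_right _ he0
              exact le_abs_self _
        _ ≤ |q.coeff (n + 2)| * (2 ^ (n + 3) * x ^ m) :=
              mul_le_mul_of_nonneg_left he1 (abs_nonneg _)
        _ = (|q.coeff (n + 2)| * 2 ^ (n + 2 + 1)) * x ^ m := by ring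
  have h1 := Finset.sum_le_sum hterm
  rw [← Finset.sum_mul, ← hB] at h1
  obtain ⟨b1, -, -, -⟩ := ShB_bounds hx1 (m + 1)
  have hkm : 0 ≤ x ^ m := by positivity
  have hkm1 : 0 ≤ x ^ (m + 1) := by positivity
  have b1' : x ^ (m + 1) ≤
      (x + 1) ^ (m + 3) + (x - 1) ^ (m + 3) - 2 * x ^ (m + 3) := by
    have b2 : 2 * x ^ (m + 1) ≤
      (x + 1) ^ (m + 3) + (x - 1) ^ (m + 3) - 2 * x ^ (m + 3) := b1
    linarith
  have h2 : q.coeff (m + 3) * ((x + 1) ^ (m + 3) + (x - 1) ^ (m + 3) - 2 * x ^ (m + 3)) ≤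
      q.coeff (m + 3) * x ^ (m + 1) := mul_le_mul_of_nonpos_left b1' hlc.le
  have h3 : B * x ^ m + q.coeff (m + 3) * x ^ (m + 1) =
      (q.coeff (m + 3) * x + B) * x ^ m := by ring
  have h4 : (q.coeff (m + 3) * x + B) * x ^ m ≤ (-35) * x ^ m :=
    mul_le_mul_of_nonneg_right hkey hkm
  have h5 : (1 : ℝ) ≤ x ^ m := one_le_pow₀ hx1
  linarith

/-- the second difference beats the constant `4` -/
theorem sh_diff {q : ℝ[X]} (hq : 2 ≤ q.natDegree) (hl : q.leadingCoeff < 0)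
    (h : 3 ≤ q.natDegree ∨ q.leadingCoeff < -Real.log 2) :
    ∃ θ X0 : ℝ, 0 < θ ∧ θ < 1 ∧ ∀ x : ℝ, X0 ≤ x →
      4 * Real.exp (q.eval (x + 1) + q.eval (x - 1) - 2 * q.eval x) ≤ θ := by
  by_cases h3 : 3 ≤ q.natDegree
  · obtain ⟨X0, hX⟩ := ShB_diff3 h3 hl
    refine ⟨1 / 2, X0, by norm_num, by norm_num, fun x hx => ?_⟩
    have h1 := Real.exp_le_exp.2 (hX x hx)
    have h2 : Real.exp (-35) ≤ 1 / 36 := by
      rw [Real.exp_neg, one_div]
      refine inv_anti₀ (by norm_num) ?_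
      have := Real.add_one_le_exp (35 : ℝ)
      linarith
    linarith
  · have h2 : q.natDegree = 2 := by omega
    have h4 : q.leadingCoeff < -Real.log 2 := h.resolve_left h3
    have hc : q.leadingCoeff = q.coeff 2 := by rw [leadingCoeff, h2]
    rw [hc] at h4
    refine ⟨4 * Real.exp (2 * q.coeff 2), 0, by positivity, ?_, fun x _ => ?_⟩
    · have h5 : Real.exp (2 * q.coeff 2) < Real.exp (-(Real.log 2 + Real.log 2)) :=
        Real.exp_lt_exp.2 (by linarith)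
      rw [Real.exp_neg, Real.exp_add, Real.exp_log (by norm_num)] at h5
      norm_num at h5
      linarith
    · have hd : q.eval (x + 1) + q.eval (x - 1) - 2 * q.eval x = 2 * q.coeff 2 := by
        have he : ∀ y : ℝ, q.eval y = q.coeff 2 * y ^ 2 + q.coeff 1 * y + q.coeff 0 := by
          intro y
          rw [eval_eq_sum_range' (n := 3) (by omega)]
          simp [Finset.sum_range_succ]
          ring
        rw [he, he, he]
        ring
      rw [hd]

/-- `w (x + h) / w x → 1` -/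
private theorem ShB_ratio {w : ℝ[X]} (hw : w ≠ 0) (h : ℝ) :
    Tendsto (fun x : ℝ => w.eval (x + h) / w.eval x) atTop (𝓝 1) := by
  have h1 := Polynomial.div_tendsto_atTop_leadingCoeff_div_of_degree_eq (taylor h w) w
    (degree_taylor w h)
  rw [leadingCoeff_taylor, div_self (leadingCoeff_ne_zero.2 hw)] at h1
  simpa only [taylor_eval] using h1

theorem sh_rat {u v : ℝ[X]} (hu : u ≠ 0) (hv : v ≠ 0) {θ : ℝ} (h0 : 0 < θ) (h1 : θ < 1) :
    ∃ X0 : ℝ, ∀ x : ℝ, X0 ≤ x →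
      0 < u.leadingCoeff * v.leadingCoeff * (u.eval x / v.eval x) ∧
      θ * ((u.eval (x - 1) / v.eval (x - 1)) * (u.eval (x + 1) / v.eval (x + 1))) ≤
        (u.eval x / v.eval x) ^ 2 := by
  obtain ⟨C, K, N, hC, hK, hb⟩ := ls_rat_bound hu hv
  have hpos : ∀ x : ℝ, C ≤ x → 0 < u.leadingCoeff * v.leadingCoeff * (u.eval x / v.eval x) := by
    intro x hx
    have := (hb x hx 1 le_rfl).1
    simpa using this
  have ht : Tendsto (fun x : ℝ => ((u.eval (x + -1) / u.eval x) * (u.eval (x + 1) / u.eval x)) /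
      ((v.eval (x + -1) / v.eval x) * (v.eval (x + 1) / v.eval x))) atTop (𝓝 ((1 * 1) / (1 * 1))) :=
    ((ShB_ratio hu _).mul (ShB_ratio hu _)).div ((ShB_ratio hv _).mul (ShB_ratio hv _)) (by norm_num)
  rw [one_mul, div_one] at ht
  have hθ : 1 < 1 / θ := by rw [lt_div_iff₀ h0]; linarith
  obtain ⟨X1, hX1⟩ := eventually_atTop.1 ((tendsto_order.1 ht).2 _ hθ)
  refine ⟨max C X1, fun x hx => ?_⟩
  have hxC : C ≤ x := le_trans (le_max_left _ _) hx
  have hxX : X1 ≤ x := le_trans (le_max_right _ _) hx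
  refine ⟨hpos x hxC, ?_⟩
  have h2 := hX1 x hxX
  have h3 := hpos x hxC
  have hux : u.eval x ≠ 0 := by
    intro h
    rw [h, zero_div, mul_zero] at h3
    exact lt_irrefl _ h3
  have hvx : v.eval x ≠ 0 := by
    intro h
    rw [h, div_zero, mul_zero] at h3
    exact lt_irrefl _ h3
  have h4 : (u.eval (x - 1) / v.eval (x - 1)) * (u.eval (x + 1) / v.eval (x + 1)) =
      ((u.eval (x + -1) / u.eval x) * (u.eval (x + 1) / u.eval x)) /
      ((v.eval (x + -1) / v.eval x) * (v.eval (x + 1) / v.eval x)) * (u.eval x / v.eval x) ^ 2 := by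
    rw [← sub_eq_add_neg]
    rcases eq_or_ne (v.eval (x - 1)) 0 with h5 | h5
    · rw [h5]; simp
    rcases eq_or_ne (v.eval (x + 1)) 0 with h6 | h6
    · rw [h6]; simp
    field_simp
  rw [h4, ← mul_assoc]
  have h5 : θ * (((u.eval (x + -1) / u.eval x) * (u.eval (x + 1) / u.eval x)) /
      ((v.eval (x + -1) / v.eval x) * (v.eval (x + 1) / v.eval x))) ≤ 1 := by
    have := mul_lt_mul_of_pos_left h2 h0
    rw [mul_one_div_cancel h0.ne'] at this
    exact this.le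
  have := mul_le_mul_of_nonneg_right h5 (sq_nonneg (u.eval x / v.eval x))
  rw [one_mul] at this
  exact this

end Pool.Agent.MPd164ca
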