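import Pool.Agent.Lib.MP_d164ca_an.LS.Shift
import Pool.Agent.Lib.MP_d164ca_an.LS.ShiftB
import Pool.Agent.Lib.MP_d164ca_an.LS.KzSer

/-!
# Large shifts: assembly
-/

namespace Pool.Agent.MPd164ca

open Polynomial Finset Filter Topology

theorem sh_necessity {u v q : ℝ[X]} (hu : u ≠ 0) (hv0 : ∀ x : ℝ, 0 ≤ x → v.eval x ≠ 0)
    {s : ℝ} (hs : 0 ≤ s) (h : IsMultiplierSequence (fun k : ℕ => lsF u v q (s + k))) :
    (2 ≤ q.natDegree ∧ q.leadingCoeff < 0) ∨ (q.natDegree ≤ 1 ∧ v ∣ u) := by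
  have hv : v ≠ 0 := fun h => hv0 0 le_rfl (by rw [h, eval_zero])
  have hF : (fun k : ℕ => lsF (taylor s u) (taylor s v) (taylor s q) (1 * k)) =
      fun k : ℕ => lsF u v q (s + k) := by
    funext k
    rw [lsF, lsF, taylor_eval, taylor_eval, taylor_eval, one_mul, add_comm]
  rw [← hF] at h
  have hinj : ∀ w : ℝ[X], w ≠ 0 → taylor s w ≠ 0 := by
    intro w hw h0
    have h1 := natDegree_taylor w s
    have h2 := leadingCoeff_taylor (r := s) (f := w)
    rw [h0, leadingCoeff_zero] at h2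
    exact leadingCoeff_ne_zero.2 hw h2.symm
  have hv1 : ∀ x : ℝ, 0 ≤ x → (taylor s v).eval x ≠ 0 := by
    intro x hx
    rw [taylor_eval]
    exact hv0 _ (by positivity)
  rcases Nat.lt_or_ge q.natDegree 2 with h1 | h1
  · refine Or.inr ⟨by omega, ?_⟩
    have h2 := ls_rational (hinj v hv) hv1 (by rw [natDegree_taylor]; omega) one_pos h
    obtain ⟨w, hw⟩ := h2
    refine ⟨taylor (-s) w, ?_⟩
    have h3 := congrArg (fun p => taylor (-s) p) hw
    simp only [taylor_mul, taylor_taylor, neg_add_cancel, taylor_zero] at h3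
    exact h3
  · refine Or.inl ⟨h1, ?_⟩
    have hq : q ≠ 0 := by
      rintro rfl
      simp at h1
    rcases lt_trichotomy q.leadingCoeff 0 with h2 | h2 | h2
    · exact h2
    · exact absurd (leadingCoeff_eq_zero.1 h2) hq
    · exact absurd h (ls_no_growth (hinj u hu) (hinj v hv) (by rw [natDegree_taylor]; exact h1)
        (by rw [leadingCoeff_taylor]; exact h2) one_pos)

/-- the case of a large gap -/
theorem sh_gap {u v q : ℝ[X]} (hu : u ≠ 0) (hv : v ≠ 0)
    (hq : 2 ≤ q.natDegree) (hl : q.leadingCoeff < 0)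
    (h : 3 ≤ q.natDegree ∨ q.leadingCoeff < -Real.log 2) :
    ∃ S : ℝ, ∀ s : ℝ, S ≤ s → IsMultiplierSequence (fun k : ℕ => lsF u v q (s + k)) := by
  obtain ⟨θ, X0, hθ0, hθ1, hD⟩ := sh_diff hq hl h
  obtain ⟨X1, hR⟩ := sh_rat hu hv hθ0 hθ1
  refine ⟨max X0 X1, fun s hs => ?_⟩
  have hs0 : X0 ≤ s := le_trans (le_max_left _ _) hs
  have hs1 : X1 ≤ s := le_trans (le_max_right _ _) hs
  set c : ℝ := u.leadingCoeff * v.leadingCoeff with hc
  have hc0 : c ≠ 0 := mul_ne_zero (leadingCoeff_ne_zero.2 hu) (leadingCoeff_ne_zero.2 hv)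
  have hpos : ∀ k : ℕ, 0 < c * lsF u v q (s + k) := by
    intro k
    have h1 := (hR (s + k) (by have : (0 : ℝ) ≤ k := Nat.cast_nonneg k; linarith)).1
    rw [lsF, ← mul_assoc]
    exact mul_pos h1 (Real.exp_pos _)
  have key : IsMultiplierSequence (fun k : ℕ => c * lsF u v q (s + k)) := by
    refine kz_ms_of_ratio (hpos 0).le (fun k _ => hpos k) fun k hk => ?_
    have hcast : ((k - 1 : ℕ) : ℝ) = (k : ℝ) - 1 := by
      rw [Nat.cast_sub hk, Nat.cast_one]
    have hcast2 : ((k + 1 : ℕ) : ℝ) = (k : ℝ) + 1 := by push_cast; ring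
    rw [hcast, hcast2]
    have hk0 : (0 : ℝ) ≤ k := Nat.cast_nonneg k
    have hx0 : X0 ≤ s + k := by linarith
    have hx1 : X1 ≤ s + k := by linarith
    have e1 : s + ((k : ℝ) - 1) = s + k - 1 := by ring
    have e2 : s + ((k : ℝ) + 1) = s + k + 1 := by ring
    rw [e1, e2]
    set x : ℝ := s + k with hx
    have hDx := hD x hx0
    have hRx := (hR x hx1).2
    simp only [lsF]
    set A := u.eval (x - 1) / v.eval (x - 1) with hA
    set B := u.eval (x + 1) / v.eval (x + 1) with hB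
    set D := u.eval x / v.eval x with hDd
    have e3 : Real.exp (q.eval (x - 1)) * Real.exp (q.eval (x + 1)) =
        Real.exp (q.eval (x + 1) + q.eval (x - 1) - 2 * q.eval x) * Real.exp (q.eval x) ^ 2 := by
      rw [← Real.exp_add, pow_two, ← Real.exp_add, ← Real.exp_add]
      congr 1
      ring
    have e4 : 4 * (c * (A * Real.exp (q.eval (x - 1))) * (c * (B * Real.exp (q.eval (x + 1))))) =
        c ^ 2 * Real.exp (q.eval x) ^ 2 *
          ((4 * Real.exp (q.eval (x + 1) + q.eval (x - 1) - 2 * q.eval x)) * (A * B)) := by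
      have : 4 * (c * (A * Real.exp (q.eval (x - 1))) * (c * (B * Real.exp (q.eval (x + 1))))) =
        4 * c ^ 2 * (A * B) * (Real.exp (q.eval (x - 1)) * Real.exp (q.eval (x + 1))) := by ring
      rw [this, e3]
      ring
    rw [e4]
    have e5 : (4 * Real.exp (q.eval (x + 1) + q.eval (x - 1) - 2 * q.eval x)) * (A * B) ≤ D ^ 2 := by
      rcases le_total 0 (A * B) with h6 | h6
      · exact (mul_le_mul_of_nonneg_right hDx h6).trans hRx
      · exact (mul_nonpos_of_nonneg_of_nonpos (by positivity) h6).trans (sq_nonneg _)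
    calc _ ≤ c ^ 2 * Real.exp (q.eval x) ^ 2 * D ^ 2 :=
          mul_le_mul_of_nonneg_left e5 (by positivity)
      _ = _ := by ring
  have h3 := ms_smul key c⁻¹
  have h4 : (fun k : ℕ => c⁻¹ * (c * lsF u v q (s + k))) = fun k : ℕ => lsF u v q (s + k) := by
    funext k
    rw [← mul_assoc, inv_mul_cancel₀ hc0, one_mul]
  rwa [h4] at h3

/-- the polynomial case -/
theorem sh_dvd {u v q : ℝ[X]} (hv0 : ∀ x : ℝ, 0 ≤ x → v.eval x ≠ 0)
    (hq : q.natDegree ≤ 2) (hq2 : q.coeff 2 ≤ 0) (h : v ∣ u) :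
    ∃ S : ℝ, ∀ s : ℝ, S ≤ s → IsMultiplierSequence (fun k : ℕ => lsF u v q (s + k)) := by
  obtain ⟨P, rfl⟩ := h
  obtain ⟨S, hS⟩ := sh_poly P
  refine ⟨max S 0, fun s hs => ?_⟩
  have hs0 : 0 ≤ s := le_trans (le_max_right _ _) hs
  have h1 := hS s (le_trans (le_max_left _ _) hs)
  have h2 := ss_ms_gauss (α := -q.coeff 2) (by linarith)
  have h3 := ms_geom (ss_ms_mul h1 h2) (Real.exp (q.eval s))
    (Real.exp_pos (2 * q.coeff 2 * s + q.coeff 1))
  convert h3 using 1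
  funext k
  have hk : (0 : ℝ) ≤ s + k := by positivity
  rw [lsF, eval_mul, mul_div_cancel_left₀ _ (hv0 _ hk)]
  have he : ∀ y : ℝ, q.eval y = q.coeff 2 * y ^ 2 + q.coeff 1 * y + q.coeff 0 := by
    intro y
    rw [eval_eq_sum_range' (n := 3) (by omega)]
    simp [Finset.sum_range_succ]
    ring
  have h7 : q.eval (s + k) = q.eval s + k * (2 * q.coeff 2 * s + q.coeff 1) +
      -(-q.coeff 2) * (k : ℝ) ^ 2 := by
    rw [he, he]
    ring
  rw [h7, Real.exp_add, Real.exp_add, Real.exp_nat_mul]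
  ring

theorem sh_sufficiency {u v q : ℝ[X]} (hu : u ≠ 0) (hv0 : ∀ x : ℝ, 0 ≤ x → v.eval x ≠ 0)
    (h2 : q.natDegree = 2 → q.leadingCoeff < -Real.log 2 ∨ 0 < q.leadingCoeff ∨ v ∣ u)
    (h : (2 ≤ q.natDegree ∧ q.leadingCoeff < 0) ∨ (q.natDegree ≤ 1 ∧ v ∣ u)) :
    ∃ S : ℝ, ∀ s : ℝ, S ≤ s → IsMultiplierSequence (fun k : ℕ => lsF u v q (s + k)) := by
  have hv : v ≠ 0 := fun h => hv0 0 le_rfl (by rw [h, eval_zero])
  rcases h with ⟨h1, h3⟩ | ⟨h1, h3⟩
  · by_cases h4 : q.natDegree = 2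
    · rcases h2 h4 with h5 | h5 | h5
      · exact sh_gap hu hv h1 h3 (Or.inr h5)
      · exact absurd h5 (not_lt.2 h3.le)
      · refine sh_dvd hv0 h4.le ?_ h5
        have hc : q.leadingCoeff = q.coeff 2 := by rw [leadingCoeff, h4]
        rw [← hc]
        exact h3.le
    · exact sh_gap hu hv h1 h3 (Or.inl (by omega))
  · refine sh_dvd hv0 (by omega) ?_ h3
    rw [coeff_eq_zero_of_natDegree_lt (by omega)]

end Pool.Agent.MPd164ca
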